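import Pool.Agent.LK1.Base

/-!
# LK1/ChebJ: Chebyshev polynomials and their derivatives as functions

`TJ q j x = T_q^(j)(x)`.  Everything is in Mathlib:
`Polynomial.Chebyshev.T_real_cos`, `U_real_cos`, `T_derivative_eq_U`, `iterate_derivative_T_eval_one`,
`iterate_derivative_T_eval_one_eq_div`, `iterate_derivative_T_eval_one_recurrence`,
`abs_iterate_derivative_T_real_le`, `abs_eval_T_real_le_one`, `natDegree_T`, `leadingCoeff_T`.

* `TJ_hasDerivAt`: `Polynomial.hasDerivAt` and `Function.iterate_succ_apply'`.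
* `TJ_top`: for `q = m + 1` the polynomial `derivative^[m] (T q)` has degree one with leading coefficient
  `(m+1)! 2^m`, so its increments are `2^m (m+1)! (y-x)`.
  (e.g. `TJ q (m+1)` is the constant `(m+1)! * leadingCoeff`, use the mean value theorem or
  `Polynomial.natDegree_iterate_derivative` / `Polynomial.eval` of a polynomial of degree ≤ 1.)
* `TJ_inF`: the Lipschitz constant of `TJ q m` on `[-1,1]` is at most `sup |TJ q (m+1)| = TJ q (m+1) 1`
  (mean value inequality, `Convex.norm_image_sub_le_of_norm_hasDerivWithin_le` or similar).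
* `TJ_inF_low`: for `q = m` the function `TJ m m` is constant.
-/

namespace Pool.LK1

open Set Polynomial

/-- `T_q^(j)(x)` -/
noncomputable def TJ (q j : ℕ) (x : ℝ) : ℝ := (derivative^[j] (Chebyshev.T ℝ (q : ℤ))).eval x

theorem TJ_hasDerivAt (q j : ℕ) (x : ℝ) : HasDerivAt (TJ q j) (TJ q (j + 1) x) x := by
  have h := Polynomial.hasDerivAt (derivative^[j] (Chebyshev.T ℝ (q : ℤ))) x
  unfold TJ
  rw [Function.iterate_succ_apply']
  exact h

theorem TJ_der (q m : ℕ) (a b : ℝ) : Der m a b (TJ q) :=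
  fun j _ x _ => (TJ_hasDerivAt q j x).hasDerivWithinAt

theorem TJ_cos (q : ℕ) (t : ℝ) : TJ q 0 (Real.cos t) = Real.cos (q * t) := by
  unfold TJ
  rw [Function.iterate_zero, id, Chebyshev.T_real_cos]
  push_cast
  rfl

theorem TJ_node (q i : ℕ) (hq : 1 ≤ q) : TJ q 0 (Real.cos (i * Real.pi / q)) = (-1) ^ i := by
  rw [TJ_cos]
  have hq0 : (q : ℝ) ≠ 0 := by positivity
  have : (q : ℝ) * (i * Real.pi / q) = i * Real.pi := by field_simp
  rw [this, Real.cos_nat_mul_pi]

theorem TJ1_cos (q : ℕ) (t : ℝ) : TJ q 1 (Real.cos t) * Real.sin t = q * Real.sin (q * t) := by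
  unfold TJ
  rw [Function.iterate_one, Chebyshev.T_derivative_eq_U, eval_mul, mul_assoc, Chebyshev.U_real_cos]
  push_cast
  simp

theorem TJ_one_one (q : ℕ) : TJ q 1 1 = (q : ℝ) ^ 2 := by
  unfold TJ
  rw [Function.iterate_one, Chebyshev.derivative_T_eval_one]
  push_cast
  rfl

theorem TJ_val_one (q n : ℕ) :
    TJ q n 1 = ∏ i ∈ Finset.range n, (((q : ℝ) ^ 2 - (i : ℝ) ^ 2) / (2 * (i : ℝ) + 1)) := by
  unfold TJ
  rw [Chebyshev.iterate_derivative_T_eval_one_eq_div, Finset.prod_div_distrib]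
  push_cast
  rfl

theorem TJ_two_one (q : ℕ) : TJ q 2 1 = (q : ℝ) ^ 2 * ((q : ℝ) ^ 2 - 1) / 3 := by
  rw [TJ_val_one]
  simp [Finset.prod_range_succ]
  ring

theorem TJ_abs_le (q j : ℕ) {x : ℝ} (hx : x ∈ Icc (-1 : ℝ) 1) : |TJ q j x| ≤ TJ q j 1 :=
  Chebyshev.abs_iterate_derivative_T_real_le _ _ (abs_le.2 ⟨hx.1, hx.2⟩)

theorem TJ_diag (q : ℕ) (x : ℝ) :
    TJ q q x = q.factorial * (Chebyshev.T ℝ (q : ℤ)).coeff q := by
  unfold TJ
  have h1 : (derivative^[q] (Chebyshev.T ℝ (q : ℤ))).natDegree ≤ 0 := by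
    refine (natDegree_iterate_derivative _ _).trans ?_
    rw [Chebyshev.natDegree_T]
    simp
  rw [eq_C_of_natDegree_le_zero h1, eval_C, coeff_iterate_derivative, zero_add,
    Nat.descFactorial_self, nsmul_eq_mul]

theorem TJ_top (m : ℕ) (x y : ℝ) :
    TJ (m + 1) m y - TJ (m + 1) m x = 2 ^ m * (m + 1).factorial * (y - x) := by
  have h1 : ∀ z, TJ (m + 1) (m + 1) z = 2 ^ m * (m + 1).factorial := by
    intro z
    rw [TJ_diag]
    have h2 : (Chebyshev.T ℝ ((m + 1 : ℕ) : ℤ)).coeff (m + 1) = 2 ^ m := by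
      have h3 := Chebyshev.leadingCoeff_T (R := ℝ) ((m + 1 : ℕ) : ℤ)
      unfold leadingCoeff at h3
      rw [Chebyshev.natDegree_T, Int.natAbs_natCast] at h3
      simpa only [Nat.add_sub_cancel] using h3
    rw [h2]
    ring
  have h4 : ∀ z, HasDerivAt (fun z => TJ (m + 1) m z - 2 ^ m * (m + 1).factorial * z) 0 z := by
    intro z
    have h5 := (TJ_hasDerivAt (m + 1) m z).sub
      ((hasDerivAt_id z).const_mul (2 ^ m * ((m + 1).factorial : ℝ)))
    rw [h1, mul_one, sub_self] at h5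
    exact h5
  have h6 := is_const_of_deriv_eq_zero (fun z => (h4 z).differentiableAt) (fun z => (h4 z).deriv)
    y x
  linarith

theorem TJ_zero_abs_le (q : ℕ) {x : ℝ} (hx : x ∈ Icc (-1 : ℝ) 1) : |TJ q 0 x| ≤ 1 := by
  unfold TJ
  rw [Function.iterate_zero, id]
  exact Chebyshev.abs_eval_T_real_le_one _ (abs_le.2 ⟨hx.1, hx.2⟩)

theorem TJ_inF (q m : ℕ) {s : ℝ} (hs : TJ q (m + 1) 1 ≤ s) : InF m s (-1) 1 (TJ q) where
  der := TJ_der q m _ _
  lip := by
    intro x hx y hy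
    have h := Convex.norm_image_sub_le_of_norm_hasDerivWithin_le (s := Icc (-1 : ℝ) 1)
      (f := TJ q m) (f' := fun z => TJ q (m + 1) z) (C := s)
      (fun z _ => (TJ_hasDerivAt q m z).hasDerivWithinAt)
      (fun z hz => (TJ_abs_le q (m + 1) hz).trans hs) (convex_Icc _ _) hy hx
    simpa [Real.norm_eq_abs] using h
  bd := fun x hx => TJ_zero_abs_le q hx

theorem TJ_inF_low (m : ℕ) {s : ℝ} (hs : 0 ≤ s) : InF m s (-1) 1 (TJ m) where
  der := TJ_der m m _ _
  lip := by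
    intro x _ y _
    rw [TJ_diag, TJ_diag, sub_self, abs_zero]
    positivity
  bd := fun x hx => TJ_zero_abs_le m hx

end Pool.LK1
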