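import Pool.Agent.LK1.Base

/-!
# LK1/AltL: alternating values and increments (Rolle)

* `Alt.inc`: `N+1` alternating values give `N` alternating increments (same rightmost sign).
* `Inc.alt`: mean value theorem, `N` alternating increments of `h` give `N` alternating values of `h'`.
* `Alt.inc_right`: if moreover `s * h b ≤ 0` at the right end point then `N` alternating values give `N`
  alternating increments with rightmost sign `-s` (the point `b` is put in front; `y 0 < b` because
  `s * h (y 0) > 0`).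
* `Alt.cons_right`: if `s * h b < 0` there are `N+1` alternating values, rightmost sign `-s`.
* `Alt.down`: iteration.
* `no_inc_anti`, `no_inc_mono`: a monotone function has no two alternating increments.
-/

namespace Pool.LK1

open Set

theorem Alt.inc {h : ℝ → ℝ} {a b : ℝ} {N : ℕ} {s : ℝ} (H : Alt h a b (N + 1) s) : Inc h a b N s := by
  obtain ⟨y, h1, h2, h3⟩ := H
  refine ⟨y, fun i hi => h1 i (by omega), fun i hi => h2 i (by omega), fun i hi => ?_⟩
  have e1 := h3 i (by omega)
  have e2 := h3 (i + 1) (by omega)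
  have e3 : s * (-1) ^ (i + 1) * h (y (i + 1)) = -(s * (-1) ^ i * h (y (i + 1))) := by ring
  rw [e3] at e2
  have e4 : s * (-1) ^ i * (h (y i) - h (y (i + 1)))
      = s * (-1) ^ i * h (y i) + -(s * (-1) ^ i * h (y (i + 1))) := by ring
  rw [e4]
  exact add_pos e1 e2

theorem Inc.alt {h h' : ℝ → ℝ} {a b : ℝ} {N : ℕ} {s : ℝ} (H : Inc h a b N s)
    (hd : ∀ x ∈ Icc a b, HasDerivWithinAt h (h' x) (Icc a b) x) : Alt h' a b N s := by
  obtain ⟨y, h1, h2, h3⟩ := H
  have key : ∀ i, ∃ z : ℝ, i < N → (y (i + 1) < z ∧ z < y i ∧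
      h' z = (h (y i) - h (y (i + 1))) / (y i - y (i + 1))) := by
    intro i
    by_cases hi : i < N
    · have m1 := h1 i (by omega)
      have m2 := h1 (i + 1) (by omega)
      have hlt := h2 i hi
      have hcont : ContinuousOn h (Icc (y (i + 1)) (y i)) := by
        intro x hx
        have hx' : x ∈ Icc a b := ⟨m2.1.trans hx.1, hx.2.trans m1.2⟩
        exact ((hd x hx').continuousWithinAt).mono (Icc_subset_Icc m2.1 m1.2)
      have hder : ∀ x ∈ Ioo (y (i + 1)) (y i), HasDerivAt h (h' x) x := by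
        intro x hx
        have hx' : x ∈ Icc a b := ⟨m2.1.trans hx.1.le, hx.2.le.trans m1.2⟩
        exact (hd x hx').hasDerivAt (Icc_mem_nhds (lt_of_le_of_lt m2.1 hx.1) (lt_of_lt_of_le hx.2 m1.2))
      obtain ⟨z, hz, hz2⟩ := exists_hasDerivAt_eq_slope h h' hlt hcont hder
      exact ⟨z, fun _ => ⟨hz.1, hz.2, hz2⟩⟩
    · exact ⟨0, fun h => absurd h hi⟩
  choose z hz using key
  refine ⟨z, fun i hi => ?_, fun i hi => ?_, fun i hi => ?_⟩
  · have m1 := h1 i (by omega)
    have m2 := h1 (i + 1) (by omega)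
    obtain ⟨z1, z2, -⟩ := hz i hi
    exact ⟨m2.1.trans z1.le, z2.le.trans m1.2⟩
  · obtain ⟨z1, z2, -⟩ := hz i (by omega)
    obtain ⟨w1, w2, -⟩ := hz (i + 1) (by omega)
    exact lt_trans w2 z1
  · obtain ⟨z1, z2, z3⟩ := hz i hi
    rw [z3]
    have hpos : 0 < y i - y (i + 1) := sub_pos.mpr (h2 i hi)
    have e := h3 i hi
    have e2 : s * (-1) ^ i * ((h (y i) - h (y (i + 1))) / (y i - y (i + 1)))
        = (s * (-1) ^ i * (h (y i) - h (y (i + 1)))) / (y i - y (i + 1)) := by ring
    rw [e2]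
    exact div_pos e hpos

theorem Alt.inc_right {h : ℝ → ℝ} {a b : ℝ} {N : ℕ} {s : ℝ} (hab : a ≤ b) (H : Alt h a b N s) (hN : 1 ≤ N)
    (hb : s * h b ≤ 0) : Inc h a b N (-s) := by
  obtain ⟨y, h1, h2, h3⟩ := H
  have h0 := h3 0 (by omega)
  have h0' : 0 < s * h (y 0) := by simpa using h0
  have hy0 : y 0 < b := by
    rcases lt_or_eq_of_le (h1 0 (by omega)).2 with h | h
    · exact h
    · rw [h] at h0'
      linarith
  refine ⟨fun i => Nat.casesOn i b y, ?_, ?_, ?_⟩
  · intro i hi
    cases i with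
    | zero => exact ⟨hab, le_refl b⟩
    | succ j => exact h1 j (by omega)
  · intro i hi
    cases i with
    | zero => exact hy0
    | succ j => exact h2 j (by omega)
  · intro i hi
    cases i with
    | zero =>
      show 0 < -s * (-1) ^ 0 * (h b - h (y 0))
      have : -s * (-1) ^ 0 * (h b - h (y 0)) = s * h (y 0) - s * h b := by ring
      rw [this]
      linarith
    | succ j =>
      show 0 < -s * (-1) ^ (j + 1) * (h (y j) - h (y (j + 1)))
      have e1 := h3 j (by omega)
      have e2 := h3 (j + 1) (by omega)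
      have e3 : s * (-1) ^ (j + 1) * h (y (j + 1)) = -(s * (-1) ^ j * h (y (j + 1))) := by ring
      rw [e3] at e2
      have e4 : -s * (-1) ^ (j + 1) * (h (y j) - h (y (j + 1)))
          = s * (-1) ^ j * h (y j) + -(s * (-1) ^ j * h (y (j + 1))) := by ring
      rw [e4]
      exact add_pos e1 e2

theorem Alt.cons_right {h : ℝ → ℝ} {a b : ℝ} {N : ℕ} {s : ℝ} (hab : a ≤ b) (H : Alt h a b N s) (hN : 1 ≤ N)
    (hb : s * h b < 0) : Alt h a b (N + 1) (-s) := by
  obtain ⟨y, h1, h2, h3⟩ := H
  have h0 := h3 0 (by omega)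
  have h0' : 0 < s * h (y 0) := by simpa using h0
  have hy0 : y 0 < b := by
    rcases lt_or_eq_of_le (h1 0 (by omega)).2 with h | h
    · exact h
    · rw [h] at h0'
      linarith
  refine ⟨fun i => Nat.casesOn i b y, ?_, ?_, ?_⟩
  · intro i hi
    cases i with
    | zero => exact ⟨hab, le_refl b⟩
    | succ j => exact h1 j (by omega)
  · intro i hi
    cases i with
    | zero => exact hy0
    | succ j => exact h2 j (by omega)
  · intro i hi
    cases i with
    | zero =>
      show 0 < -s * (-1) ^ 0 * h b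
      have : -s * (-1) ^ 0 * h b = - (s * h b) := by ring
      rw [this]
      linarith
    | succ j =>
      show 0 < -s * (-1) ^ (j + 1) * h (y j)
      have e1 := h3 j (by omega)
      have e4 : -s * (-1) ^ (j + 1) * h (y j) = s * (-1) ^ j * h (y j) := by ring
      rw [e4]
      exact e1

/-- from the order `j` to the order `j + i` -/
theorem Alt.down {m : ℕ} {a b : ℝ} {D : ℕ → ℝ → ℝ} (hD : Der m a b D) {s : ℝ} (i : ℕ) :
    ∀ (j N : ℕ), j + i ≤ m → Alt (D j) a b (N + i) s → Alt (D (j + i)) a b N s := by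
  induction i with
  | zero => intro j N _ h; exact h
  | succ i ih =>
    intro j N hj h
    have h1 : Alt (D j) a b (N + i + 1) s := h
    have h2 := h1.inc
    have h3 : Alt (D (j + 1)) a b (N + i) s := h2.alt (fun x hx => hD j (by omega) x hx)
    have h4 := ih (j + 1) N (by omega) h3
    have e : j + 1 + i = j + (i + 1) := by omega
    rw [e] at h4
    exact h4

theorem no_inc_anti {h : ℝ → ℝ} {a b : ℝ} (hh : ∀ x ∈ Icc a b, ∀ y ∈ Icc a b, x ≤ y → h y ≤ h x) :
    ¬ Inc h a b 1 1 := by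
  rintro ⟨y, h1, h2, h3⟩
  have e1 := h3 0 (by omega)
  have e2 := hh (y 1) (h1 1 (by omega)) (y 0) (h1 0 (by omega)) (h2 0 (by omega)).le
  have e3 : 0 < h (y 0) - h (y 1) := by simpa using e1
  linarith

theorem no_inc_mono {h : ℝ → ℝ} {a b : ℝ} (hh : ∀ x ∈ Icc a b, ∀ y ∈ Icc a b, x ≤ y → h x ≤ h y)
    {s : ℝ} (hs : s = 1 ∨ s = -1) : ¬ Inc h a b 2 s := by
  rintro ⟨y, h1, h2, h3⟩
  have e0 := h3 0 (by omega)
  have e1 := h3 1 (by omega)
  have m0 := hh (y 1) (h1 1 (by omega)) (y 0) (h1 0 (by omega)) (h2 0 (by omega)).le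
  have m1 := hh (y 2) (h1 2 (by omega)) (y 1) (h1 1 (by omega)) (h2 1 (by omega)).le
  rcases hs with rfl | rfl
  · have e3 : 0 < -(h (y 1) - h (y 2)) := by
      have : (1 : ℝ) * (-1) ^ 1 * (h (y 1) - h (y (1 + 1))) = -(h (y 1) - h (y 2)) := by
        norm_num
      rwa [this] at e1
    linarith
  · have e3 : 0 < -(h (y 0) - h (y 1)) := by
      have : (-1 : ℝ) * (-1) ^ 0 * (h (y 0) - h (y (0 + 1))) = -(h (y 0) - h (y 1)) := by
        norm_num
      rwa [this] at e0
    linarith

end Pool.LK1
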