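import Pool.Agent.LK1.AltL

/-!
# LK1/BBc: comparison on an increasing branch (counting)

`P` is a function on `[a,b]` (with derivatives up to the order `m`), `P^(m)` has increments at least `s (y - x)`,
and `P (x_i) = (-1)^i` at `m + 2` points `x_0 > x_1 > … > x_{m+1}` of `[a,b]`.  `φ` is in the class with constant
`s`, `0 ≤ c < 1`, and at a point `y` of the increasing branch `(x_{2j+1}, x_{2j})` one has `P(y) = c φ(y)`.
Then `c φ'(y) ≤ P'(y)`.

Proof.  Let `d_k = P_k - c φ_k` (`Der m a b`) and suppose `d_1(y) < 0`, `d_0(y) = 0`.  As `y` is an interior point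
(`x_{2j+1} < y < x_{2j}`), `d_0` has the derivative `d_1(y) < 0` at `y`, so there are points
`x_{2j+1} < y' < y < y'' < x_{2j}` with `d_0(y') > 0 > d_0(y'')`.  Together with the `m + 2` points `x_i`, where
`(-1)^i d_0(x_i) = 1 - c (-1)^i φ_0(x_i) > 0`, we get `m + 4` alternating values with rightmost sign `+`:
`x_0, …, x_{2j}, y'', y', x_{2j+1}, …, x_{m+1}` (define the sequence by cases: `z i = x i` for `i ≤ 2j`,
`z (2j+1) = y''`, `z (2j+2) = y'`, `z i = x (i-2)` for `i ≥ 2j+3`).  `Alt.down` with `m` steps gives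
`Alt d_m a b 4 1`, hence `Inc d_m a b 3 1`, in particular two alternating increments (forget one point), but `d_m` is
nondecreasing: increments of `P_m` are `≥ s(y-x)`, those of `c φ_m` are `≤ c s (y-x) ≤ s (y - x)`
(note `s ≥ 0` follows from the Lipschitz condition at two different points; if needed).  Contradiction
(`no_inc_mono`).
-/

namespace Pool.LK1

open Set

theorem branch {m : ℕ} (hm : 1 ≤ m) {s a b : ℝ} (hs : 0 ≤ s) {P φ : ℕ → ℝ → ℝ} (hP : Der m a b P)
    (hPm : ∀ x ∈ Icc a b, ∀ y ∈ Icc a b, x ≤ y → s * (y - x) ≤ P m y - P m x)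
    {x : ℕ → ℝ} (hx : ∀ i ≤ m + 1, x i ∈ Icc a b) (hxd : ∀ i < m + 1, x (i + 1) < x i)
    (hPx : ∀ i ≤ m + 1, P 0 (x i) = (-1) ^ i) (hφ : InF m s a b φ) {c : ℝ} (hc0 : 0 ≤ c) (hc1 : c < 1)
    {j : ℕ} (hj : 2 * j + 1 ≤ m + 1) {y : ℝ} (hy : y ∈ Ioo (x (2 * j + 1)) (x (2 * j)))
    (hy0 : P 0 y = c * φ 0 y) : c * φ 1 y ≤ P 1 y := by
  by_contra hcon
  have hcon : P 1 y < c * φ 1 y := not_le.1 hcon
  have hI0 := hx (2 * j) (by omega)
  have hI1 := hx (2 * j + 1) hj
  have hya : a < y := lt_of_le_of_lt hI1.1 hy.1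
  have hyb : y < b := lt_of_lt_of_le hy.2 hI0.2
  have hyI : y ∈ Icc a b := ⟨hya.le, hyb.le⟩
  have hD : Der m a b (fun k x => P k x - c * φ k x) := hP.sub_smul hφ.der c
  have hd : HasDerivAt (fun x => P 0 x - c * φ 0 x) (P 1 y - c * φ 1 y) y :=
    (hD 0 (by omega) y hyI).hasDerivAt (Icc_mem_nhds hya hyb)
  have hd0 : P 0 y - c * φ 0 y = 0 := by rw [hy0, sub_self]
  have hneg : P 1 y - c * φ 1 y < 0 := by linarith
  have hsl := (hasDerivAt_iff_tendsto_slope.1 hd).eventually (gt_mem_nhds hneg)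
  -- a point on the right
  obtain ⟨y2, hy2, hy2'⟩ : ∃ y2 ∈ Ioo y (x (2 * j)), P 0 y2 - c * φ 0 y2 < 0 := by
    have h1 : ∀ᶠ z in nhdsWithin y (Ioi y), slope (fun x => P 0 x - c * φ 0 x) y z < 0 :=
      hsl.filter_mono (nhdsWithin_mono y (fun z hz => ne_of_gt hz))
    have h2 : ∀ᶠ z in nhdsWithin y (Ioi y), z ∈ Ioo y (x (2 * j)) := Ioo_mem_nhdsGT hy.2
    obtain ⟨z, hz1, hz2⟩ := (h1.and h2).exists
    refine ⟨z, hz2, ?_⟩
    rw [slope_def_field, hd0, sub_zero] at hz1
    rcases div_neg_iff.1 hz1 with h | h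
    · have := hz2.1
      linarith [h.2]
    · exact h.1
  -- a point on the left
  obtain ⟨y1, hy1, hy1'⟩ : ∃ y1 ∈ Ioo (x (2 * j + 1)) y, 0 < P 0 y1 - c * φ 0 y1 := by
    have h1 : ∀ᶠ z in nhdsWithin y (Iio y), slope (fun x => P 0 x - c * φ 0 x) y z < 0 :=
      hsl.filter_mono (nhdsWithin_mono y (fun z hz => ne_of_lt hz))
    have h2 : ∀ᶠ z in nhdsWithin y (Iio y), z ∈ Ioo (x (2 * j + 1)) y := Ioo_mem_nhdsLT hy.1
    obtain ⟨z, hz1, hz2⟩ := (h1.and h2).exists
    refine ⟨z, hz2, ?_⟩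
    rw [slope_def_field, hd0, sub_zero] at hz1
    rcases div_neg_iff.1 hz1 with h | h
    · exact h.1
    · have := hz2.2
      linarith [h.2]
  have hsgn : ∀ i ≤ m + 1, 0 < (1 : ℝ) * (-1) ^ i * (P 0 (x i) - c * φ 0 (x i)) := by
    intro i hi
    have hb := hφ.bd (x i) (hx i hi)
    have hb' := abs_le.1 hb
    rw [hPx i hi]
    rcases Nat.even_or_odd i with h | h
    · rw [h.neg_one_pow]
      nlinarith [hb'.1, hb'.2]
    · rw [h.neg_one_pow]
      nlinarith [hb'.1, hb'.2]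
  let z : ℕ → ℝ := fun i => if i ≤ 2 * j then x i else if i = 2 * j + 1 then y2 else
    if i = 2 * j + 2 then y1 else x (i - 2)
  have hz1 : ∀ i, i ≤ 2 * j → z i = x i := fun i hi => if_pos hi
  have hz2 : z (2 * j + 1) = y2 := by
    show (if 2 * j + 1 ≤ 2 * j then _ else _) = _
    rw [if_neg (by omega), if_pos rfl]
  have hz3 : z (2 * j + 2) = y1 := by
    show (if 2 * j + 2 ≤ 2 * j then _ else _) = _
    rw [if_neg (by omega), if_neg (by omega), if_pos rfl]
  have hz4 : ∀ i, 2 * j + 3 ≤ i → z i = x (i - 2) := by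
    intro i hi
    show (if i ≤ 2 * j then _ else _) = _
    rw [if_neg (by omega), if_neg (by omega), if_neg (by omega)]
  have hcase : ∀ i, i ≤ 2 * j ∨ i = 2 * j + 1 ∨ i = 2 * j + 2 ∨ 2 * j + 3 ≤ i := by omega
  have hA : Alt ((fun k x => P k x - c * φ k x) 0) a b (4 + m) 1 := by
    refine ⟨z, ?_, ?_, ?_⟩
    · intro i hi
      rcases hcase i with h | h | h | h
      · rw [hz1 i h]
        exact hx i (by omega)
      · rw [h, hz2]
        exact ⟨hya.le.trans hy2.1.le, hy2.2.le.trans hI0.2⟩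
      · rw [h, hz3]
        exact ⟨hI1.1.trans hy1.1.le, hy1.2.le.trans hyb.le⟩
      · rw [hz4 i h]
        exact hx (i - 2) (by omega)
    · intro i hi
      rcases hcase i with h | h | h | h
      · rcases Nat.lt_or_ge i (2 * j) with h' | h'
        · rw [hz1 i h, hz1 (i + 1) (by omega)]
          exact hxd i (by omega)
        · have h'' : i = 2 * j := by omega
          rw [hz1 i h, h'', hz2]
          exact hy2.2
      · rw [h, hz2, show 2 * j + 1 + 1 = 2 * j + 2 by ring, hz3]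
        exact hy1.2.trans hy2.1
      · rw [h, hz3, show 2 * j + 2 + 1 = 2 * j + 3 by ring, hz4 _ le_rfl,
          show 2 * j + 3 - 2 = 2 * j + 1 by omega]
        exact hy1.1
      · rw [hz4 i h, hz4 (i + 1) (by omega), show i + 1 - 2 = (i - 2) + 1 by omega]
        exact hxd (i - 2) (by omega)
    · intro i hi
      rcases hcase i with h | h | h | h
      · rw [hz1 i h]
        exact hsgn i (by omega)
      · rw [h, hz2, (odd_two_mul_add_one j).neg_one_pow]
        show 0 < 1 * -1 * (P 0 y2 - c * φ 0 y2)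
        linarith
      · rw [h, hz3, (show Even (2 * j + 2) from ⟨j + 1, by ring⟩).neg_one_pow]
        show 0 < 1 * 1 * (P 0 y1 - c * φ 0 y1)
        linarith
      · rw [hz4 i h]
        have h5 := hsgn (i - 2) (by omega)
        have h6 : ((-1 : ℝ)) ^ i = (-1) ^ (i - 2) := by
          conv_lhs => rw [show i = (i - 2) + 2 by omega, pow_add]
          norm_num
        rw [h6]
        exact h5
  have hA' := Alt.down hD m 0 4 (by omega) hA
  obtain ⟨w, hw1, hw2, hw3⟩ := Alt.inc (N := 3) hA'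
  have hInc : Inc ((fun k x => P k x - c * φ k x) (0 + m)) a b 2 1 :=
    ⟨w, fun i hi => hw1 i (by omega), fun i hi => hw2 i (by omega), fun i hi => hw3 i (by omega)⟩
  refine no_inc_mono ?_ (Or.inl rfl) hInc
  intro u hu v hv huv
  rw [zero_add]
  have h1 := hPm u hu v hv huv
  have h2 := hφ.lip v hv u hu
  rw [abs_of_nonneg (sub_nonneg.2 huv)] at h2
  have h3 : φ m v - φ m u ≤ s * (v - u) := (le_abs_self _).trans h2
  have h4 : c * (φ m v - φ m u) ≤ c * (s * (v - u)) := mul_le_mul_of_nonneg_left h3 hc0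
  have h5 : c * (s * (v - u)) ≤ 1 * (s * (v - u)) :=
    mul_le_mul_of_nonneg_right hc1.le (mul_nonneg hs (sub_nonneg.2 huv))
  show P m u - c * φ m u ≤ P m v - c * φ m v
  nlinarith

end Pool.LK1
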