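import Pool.Agent.LK1.BBt

/-!
# LK1/BBn: numerical form of the Bernstein type inequality

With `t = tan(θ₀/2)`, `θ₀ = arccos y`: `t² = (1-y)/(1+y)`, `1 - y = 2t²/(1+t²)`, `0 < t ≤ 1`, and
`tan(θ₀/2 + π/n) = (t + τ)/(1 - tτ)`, `τ = tan(π/n)`.  So
`φ'(y) ≤ n · (t+τ)/(1-tτ) · (1+t²)/(2t²)`.

`bern_small` (`7 ≤ n ≤ 20`, `0 ≤ y < 3/5`): `t > 1/2`, and `τ ≤ tan(π/7) ≤ sin(π/7)/cos(π/7) ≤ 0.4488/(1 - 0.4488²/2)
≤ 0.4991` (`π < 3.1416`, `sin x ≤ x`, `cos x ≥ 1 - x²/2`).  It suffices to show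
`(t+τ)(1+t²) ≤ 7.238 t² (1 - tτ)` for `1/2 ≤ t ≤ 1`, `τ ≤ 0.4991` (then `φ'(y) ≤ n · 3.619 = n · 0.517 · 7 ≤ 0.517 n²`).
The inequality is monotone in `τ`; with `τ = 0.4991` the cubic `7.238 t²(1 - 0.4991 t) - (t + 0.4991)(1+t²)` is
`0.109` at `t = 1/2`, `0.627` at `t = 1` and concave on `[1/2, 1]` up to a tiny piece; `nlinarith` with
`(t - 1/2) * (1 - t) ≥ 0` and its product with `t` proves it.

`bern_large` (`n ≥ 21`, `0 ≤ y < 0.94`): `t² > 0.06/1.94`, `t > 0.1758`, `τ ≤ tan(π/21) ≤ 0.1514`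
(`π/21 < 0.1496`, the same bounds).  Then
`(t+τ)/(1-tτ) · (1+t²)/(2t²) ≤ 10.857 = 0.517 · 21`:  `(t+τ)(1+t²) ≤ 21.714 t² (1 - tτ)` for
`0.1758 ≤ t ≤ 1`, `τ ≤ 0.1514` (at `t = 0.1758` the two sides are `0.3373` and `0.653`).
-/

namespace Pool.LK1

open Set

theorem bbn_tan_bound {x b c : ℝ} (hx0 : 0 ≤ x) (hxb : x ≤ b) (hb : b ≤ 1)
    (hc : b ≤ c * (1 - b ^ 2 / 2)) : Real.tan x ≤ c := by
  have hb0 : 0 ≤ b := hx0.trans hxb
  have h1 : 1 - x ^ 2 / 2 ≤ Real.cos x := Real.one_sub_sq_div_two_le_cos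
  have h2 : x ^ 2 ≤ b ^ 2 := by nlinarith
  have h3 : b ^ 2 ≤ 1 := by nlinarith
  have hpos : 0 < 1 - b ^ 2 / 2 := by linarith
  have hcos : 0 < Real.cos x := by linarith
  have hc0 : 0 ≤ c := by
    by_contra hlt
    have : c * (1 - b ^ 2 / 2) < 0 := mul_neg_of_neg_of_pos (not_le.mp hlt) hpos
    linarith
  rw [Real.tan_eq_sin_div_cos, div_le_iff₀ hcos]
  have h4 : Real.sin x ≤ x := Real.sin_le hx0
  have h5 : c * (1 - b ^ 2 / 2) ≤ c * Real.cos x := mul_le_mul_of_nonneg_left (by linarith) hc0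
  linarith

theorem bbn_ne {x : ℝ} (h : Real.cos x ≠ 0) : ∀ k : ℤ, x ≠ (2 * k + 1) * Real.pi / 2 := by
  intro k hk
  exact h (Real.cos_eq_zero_iff.mpr ⟨k, hk⟩)

theorem bbn_angle (m : ℕ) (hm : 4 ≤ m) : 0 < Real.pi / ((m : ℝ) + 1) ∧
    Real.pi / ((m : ℝ) + 1) < Real.pi / 2 := by
  have hm' : (4 : ℝ) ≤ m := by exact_mod_cast hm
  refine ⟨by positivity, ?_⟩
  apply div_lt_div_of_pos_left Real.pi_pos (by norm_num)
  linarith

theorem bern_t (m : ℕ) (hm : 4 ≤ m) {φ : ℕ → ℝ → ℝ}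
    (h : InF m (2 ^ m * (m + 1).factorial) (-1) 1 φ) {y : ℝ} (hy0 : 0 ≤ y) (hy1 : y < 1)
    {t : ℝ} (ht : 0 < t) (hty : t ^ 2 * (1 + y) = 1 - y) {τ : ℝ} (hτ : τ = Real.tan (Real.pi / (m + 1))) :
    φ 1 y ≤ (m + 1) * ((t + τ) / (1 - t * τ)) * ((1 + t ^ 2) / (2 * t ^ 2)) := by
  have hB := bernstein m hm h hy0 hy1
  refine hB.trans (le_of_eq ?_)
  have hA0 : 0 < Real.arccos y := Real.arccos_pos.mpr hy1
  have hA1 : Real.arccos y ≤ Real.pi / 2 := Real.arccos_le_pi_div_two.mpr hy0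
  have hcosA : 0 < Real.cos (Real.arccos y / 2) :=
    Real.cos_pos_of_mem_Ioo ⟨by linarith [Real.pi_pos], by linarith [Real.pi_pos]⟩
  have hsinA : 0 < Real.sin (Real.arccos y / 2) :=
    Real.sin_pos_of_pos_of_lt_pi (by linarith) (by linarith [Real.pi_pos])
  obtain ⟨hb0, hb1⟩ := bbn_angle m hm
  have hcosB : 0 < Real.cos (Real.pi / ((m : ℝ) + 1)) :=
    Real.cos_pos_of_mem_Ioo ⟨by linarith [Real.pi_pos], hb1⟩
  have hcy : Real.cos (Real.arccos y) = y := Real.cos_arccos (by linarith) hy1.le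
  have hc2 : y = 2 * Real.cos (Real.arccos y / 2) ^ 2 - 1 := by
    rw [← Real.cos_two_mul]
    rw [show 2 * (Real.arccos y / 2) = Real.arccos y by ring, hcy]
  have hs2 : Real.sin (Real.arccos y / 2) ^ 2 = 1 - Real.cos (Real.arccos y / 2) ^ 2 := by
    have := Real.sin_sq_add_cos_sq (Real.arccos y / 2)
    linarith
  have htan : Real.tan (Real.arccos y / 2) = t := by
    have hT0 : 0 < Real.tan (Real.arccos y / 2) := by
      rw [Real.tan_eq_sin_div_cos]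
      exact div_pos hsinA hcosA
    have hsq : Real.tan (Real.arccos y / 2) ^ 2 = t ^ 2 := by
      rw [Real.tan_eq_sin_div_cos, div_pow, hs2, div_eq_iff (by positivity)]
      have h1y : 0 < 1 + y := by linarith
      have e1 : Real.cos (Real.arccos y / 2) ^ 2 = (1 + y) / 2 := by linarith
      rw [e1]
      linarith
    have := (sq_eq_sq₀ hT0.le ht.le).mp hsq
    exact this
  have hsum : (Real.arccos y + 2 * Real.pi / (m + 1)) / 2 =
      Real.arccos y / 2 + Real.pi / ((m : ℝ) + 1) := by ring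
  rw [hsum, Real.tan_add' ⟨bbn_ne hcosA.ne', bbn_ne hcosB.ne'⟩, htan, ← hτ]
  have h1y : 1 - y = 2 * t ^ 2 / (1 + t ^ 2) := by
    rw [eq_div_iff (by positivity)]
    linarith
  rw [h1y]
  have ht2 : (0 : ℝ) < t ^ 2 := by positivity
  have ht3 : (0 : ℝ) < 1 + t ^ 2 := by positivity
  rw [div_div_eq_mul_div, mul_div_assoc, mul_assoc]

/-- the parameter `t` -/
theorem bbn_t {y : ℝ} (hy0 : 0 ≤ y) (hy1 : y < 1) :
    ∃ t : ℝ, 0 < t ∧ t ≤ 1 ∧ t ^ 2 * (1 + y) = 1 - y := by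
  have h1 : 0 < 1 + y := by linarith
  have h2 : 0 < 1 - y := by linarith
  have h3 : 0 < (1 - y) / (1 + y) := div_pos h2 h1
  refine ⟨Real.sqrt ((1 - y) / (1 + y)), Real.sqrt_pos.mpr h3, ?_, ?_⟩
  · rw [Real.sqrt_le_one]
    rw [div_le_one h1]
    linarith
  · rw [Real.sq_sqrt h3.le, div_mul_cancel₀ _ h1.ne']

/-- from the polynomial inequality to the bound -/
theorem bbn_final {n K t τ p : ℝ} (hn : 0 < n) (hK : K ≤ 517 / 1000 * n) (ht : 0 < t)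
    (htτ : t * τ < 1) (hpoly : (t + τ) * (1 + t ^ 2) ≤ 2 * K * t ^ 2 * (1 - t * τ))
    (hp : p ≤ n * ((t + τ) / (1 - t * τ)) * ((1 + t ^ 2) / (2 * t ^ 2))) :
    p ≤ 517 / 1000 * n ^ 2 := by
  have h1 : 0 < 1 - t * τ := by linarith
  have h2 : (0 : ℝ) < 2 * t ^ 2 := by positivity
  have h3 : ((t + τ) / (1 - t * τ)) * ((1 + t ^ 2) / (2 * t ^ 2)) ≤ K := by
    rw [div_mul_div_comm, div_le_iff₀ (mul_pos h1 h2)]
    linarith
  have h4 : n * (((t + τ) / (1 - t * τ)) * ((1 + t ^ 2) / (2 * t ^ 2))) ≤ n * (517 / 1000 * n) :=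
    mul_le_mul_of_nonneg_left (h3.trans hK) hn.le
  rw [← mul_assoc] at h4
  calc p ≤ _ := hp
    _ ≤ n * (517 / 1000 * n) := h4
    _ = 517 / 1000 * n ^ 2 := by ring

theorem bern_small (m : ℕ) (hm : 6 ≤ m) {φ : ℕ → ℝ → ℝ}
    (h : InF m (2 ^ m * (m + 1).factorial) (-1) 1 φ) {y : ℝ} (hy0 : 0 ≤ y) (hy1 : y < 3 / 5) :
    φ 1 y ≤ 517 / 1000 * ((m : ℝ) + 1) ^ 2 := by
  obtain ⟨t, ht, ht1, hty⟩ := bbn_t hy0 (show y < 1 by linarith)
  have hm' : (6 : ℝ) ≤ m := by exact_mod_cast hm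
  obtain ⟨hb0, hb1⟩ := bbn_angle m (by omega)
  set τ := Real.tan (Real.pi / ((m : ℝ) + 1)) with hτ
  have hτ0 : 0 ≤ τ := Real.tan_nonneg_of_nonneg_of_le_pi_div_two hb0.le hb1.le
  have hang : Real.pi / ((m : ℝ) + 1) ≤ 4488 / 10000 := by
    rw [div_le_iff₀ (by positivity)]
    have := Real.pi_lt_d4
    nlinarith
  have hτ1 : τ ≤ 4991 / 10000 := bbn_tan_bound hb0.le hang (by norm_num) (by norm_num)
  have hth : 1 / 2 < t := by
    by_contra hlt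
    have hlt' : t ≤ 1 / 2 := not_lt.mp hlt
    have h1 : t ^ 2 ≤ 1 / 4 := by nlinarith
    nlinarith
  have htτ : t * τ < 1 := by nlinarith
  refine bbn_final (K := 3619 / 1000) (n := (m : ℝ) + 1) (by positivity) (by linarith) ht htτ ?_
    (bern_t m (by omega) h hy0 (by linarith) ht hty hτ)
  have hq : 0 ≤ (t - 1 / 2) * (1 - t) := mul_nonneg (by linarith) (by linarith)
  have hq2 : 0 ≤ t * ((t - 1 / 2) * (1 - t)) := mul_nonneg ht.le hq
  have key : (t + 4991 / 10000) * (1 + t ^ 2) ≤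
      2 * (3619 / 1000) * t ^ 2 * (1 - t * (4991 / 10000)) := by nlinarith
  have hmono1 : (t + τ) * (1 + t ^ 2) ≤ (t + 4991 / 10000) * (1 + t ^ 2) :=
    mul_le_mul_of_nonneg_right (by linarith) (by positivity)
  have hmono2 : 2 * (3619 / 1000) * t ^ 2 * (1 - t * (4991 / 10000)) ≤
      2 * (3619 / 1000) * t ^ 2 * (1 - t * τ) := by
    apply mul_le_mul_of_nonneg_left _ (by positivity)
    have : t * τ ≤ t * (4991 / 10000) := mul_le_mul_of_nonneg_left hτ1 ht.le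
    linarith
  linarith

theorem bern_large (m : ℕ) (hm : 20 ≤ m) {φ : ℕ → ℝ → ℝ}
    (h : InF m (2 ^ m * (m + 1).factorial) (-1) 1 φ) {y : ℝ} (hy0 : 0 ≤ y) (hy1 : y < 94 / 100) :
    φ 1 y ≤ 517 / 1000 * ((m : ℝ) + 1) ^ 2 := by
  obtain ⟨t, ht, ht1, hty⟩ := bbn_t hy0 (show y < 1 by linarith)
  have hm' : (20 : ℝ) ≤ m := by exact_mod_cast hm
  obtain ⟨hb0, hb1⟩ := bbn_angle m (by omega)
  set τ := Real.tan (Real.pi / ((m : ℝ) + 1)) with hτ
  have hτ0 : 0 ≤ τ := Real.tan_nonneg_of_nonneg_of_le_pi_div_two hb0.le hb1.le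
  have hang : Real.pi / ((m : ℝ) + 1) ≤ 1496 / 10000 := by
    rw [div_le_iff₀ (by positivity)]
    have := Real.pi_lt_d4
    nlinarith
  have hτ1 : τ ≤ 1514 / 10000 := bbn_tan_bound hb0.le hang (by norm_num) (by norm_num)
  have hth : 1758 / 10000 < t := by
    by_contra hlt
    have hlt' : t ≤ 1758 / 10000 := not_lt.mp hlt
    have h1 : t ^ 2 ≤ (1758 / 10000) ^ 2 := by nlinarith
    nlinarith
  have htτ : t * τ < 1 := by nlinarith
  refine bbn_final (K := 10857 / 1000) (n := (m : ℝ) + 1) (by positivity) (by linarith) ht htτ ?_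
    (bern_t m (by omega) h hy0 (by linarith) ht hty hτ)
  have hq : 0 ≤ (t - 1758 / 10000) * (1 - t) := mul_nonneg (by linarith) (by linarith)
  have hq2 : 0 ≤ t * ((t - 1758 / 10000) * (1 - t)) := mul_nonneg ht.le hq
  have key : (t + 1514 / 10000) * (1 + t ^ 2) ≤
      2 * (10857 / 1000) * t ^ 2 * (1 - t * (1514 / 10000)) := by nlinarith
  have hmono1 : (t + τ) * (1 + t ^ 2) ≤ (t + 1514 / 10000) * (1 + t ^ 2) :=
    mul_le_mul_of_nonneg_right (by linarith) (by positivity)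
  have hmono2 : 2 * (10857 / 1000) * t ^ 2 * (1 - t * (1514 / 10000)) ≤
      2 * (10857 / 1000) * t ^ 2 * (1 - t * τ) := by
    apply mul_le_mul_of_nonneg_left _ (by positivity)
    have : t * τ ≤ t * (1514 / 10000) := mul_le_mul_of_nonneg_left hτ1 ht.le
    linarith
  linarith

end Pool.LK1
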