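import Pool.Agent.LK1.BBc
import Pool.Agent.LK1.ChebJ

/-!
# LK1/BBt: a Bernstein type inequality in the class

`n = m + 1 ≥ 5`, `φ` in the class on `[-1,1]` with the constant `2^m (m+1)! = T_n^(n)`.  For `0 ≤ y < 1` and
`θ = arccos y + 2π/n` (`θ < π`): `φ'(y) ≤ n tan(θ/2) / (1 - y)`.

Proof.  It suffices to show `c φ'(y) ≤ n tan(θ/2)/(1-y)` for `0 < c < 1` (let `c → 1`; the right side is `≥ 0`).
Put `w = c φ(y) ∈ (-1,1)`, `ψ = arccos w ∈ (0,π)` and let `j ≥ 0` be the smallest natural number with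
`ϑ := (ψ + 2πj)/n ≥ θ₀ := arccos y`.  Then `θ₀ ≤ ϑ < θ₀ + 2π/n = θ < π` (if `j = 0` then
`ϑ = ψ/n < π/n`, fine; if `j ≥ 1` minimality gives `(ψ + 2π(j-1))/n < θ₀`).  `0 < θ₀` because `y < 1`.
Let `α = 1 - (1-y)/sin²(ϑ/2)`.  As `1 - y = 2 sin²(θ₀/2)` and `0 < θ₀/2 ≤ ϑ/2 < π/2` we get `-1 ≤ α`, and
`α < y` because `sin²(ϑ/2) < 1`.  Let `P(x) = T_n((2x - α - 1)/(1 - α))` on `[α,1]`, i.e.
`P j x = (2/(1-α))^j TJ n j ((2x-α-1)/(1-α))`.  Then
* `P_m` has the increments `2^m (m+1)! (2/(1-α))^(m+1) (y-x) ≥ 2^m (m+1)! (y-x)` (`1 - α ≤ 2`, `TJ_top`);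
* nodes `x_i = (1+α)/2 + (1-α)/2 · cos(iπ/n)`, `i = 0..n`, `P(x_i) = (-1)^i`;
* `(2y-α-1)/(1-α) = 1 - 2(1-y)/(1-α) = 1 - 2 sin²(ϑ/2) = cos ϑ`, so `P(y) = cos(nϑ) = cos(ψ + 2πj) = w = c φ(y)`;
* `nϑ = ψ + 2πj` lies strictly between `2πj` and `2πj + π`, and `ϑ < π`, so `2πj < nϑ < nπ`, `2j < n`,
  `2j + 1 ≤ n`, and `x_{2j+1} < y < x_{2j}`.
So `branch` (on `[α,1]`, `InF.restrict`) gives `c φ'(y) ≤ P'(y) = 2/(1-α) · T_n'(cos ϑ)` and by `TJ1_cos`
`T_n'(cos ϑ) = n sin(nϑ)/sin ϑ ≤ n / sin ϑ`.  Finally `2/(1-α) = 2 sin²(ϑ/2)/(1-y)` and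
`2 sin²(ϑ/2)/sin ϑ = tan(ϑ/2) ≤ tan(θ/2)`.
-/

namespace Pool.LK1

open Set

theorem bbt_cos_half (t : ℝ) : Real.cos t = 1 - 2 * Real.sin (t / 2) ^ 2 := by
  have h1 := Real.cos_two_mul (t / 2)
  rw [show 2 * (t / 2) = t by ring] at h1
  have h2 := Real.sin_sq_add_cos_sq (t / 2)
  linarith

theorem bbt_fix (m : ℕ) (hm : 4 ≤ m) {φ : ℕ → ℝ → ℝ}
    (h : InF m (2 ^ m * (m + 1).factorial) (-1) 1 φ) {y : ℝ} (hy0 : 0 ≤ y) (hy1 : y < 1) {c : ℝ}
    (hc0 : 0 < c) (hc1 : c < 1) :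
    c * φ 1 y ≤
      (m + 1) * Real.tan ((Real.arccos y + 2 * Real.pi / (m + 1)) / 2) / (1 - y) := by
  obtain ⟨n, hn⟩ : ∃ n : ℝ, n = (m : ℝ) + 1 := ⟨_, rfl⟩
  have hm' : (4 : ℝ) ≤ m := by exact_mod_cast hm
  have hn5 : 5 ≤ n := by rw [hn]; linarith
  have hn0 : 0 < n := by linarith
  have hcast : ((m + 1 : ℕ) : ℝ) = n := by rw [hn]; push_cast; ring
  have hπ := Real.pi_pos
  obtain ⟨w, hw⟩ : ∃ w, w = c * φ 0 y := ⟨_, rfl⟩
  have hφ1 : |φ 0 y| ≤ 1 := h.bd y ⟨by linarith, hy1.le⟩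
  have hw1 : |w| < 1 := by
    rw [hw, abs_mul, abs_of_pos hc0]
    calc c * |φ 0 y| ≤ c * 1 := by gcongr
      _ < 1 := by linarith
  obtain ⟨hwl, hwu⟩ := abs_lt.1 hw1
  obtain ⟨ψ, hψ⟩ : ∃ ψ, ψ = Real.arccos w := ⟨_, rfl⟩
  have hcψ : Real.cos ψ = w := by rw [hψ]; exact Real.cos_arccos hwl.le hwu.le
  have hψ0 : 0 < ψ := by rw [hψ]; exact Real.arccos_pos.2 hwu
  have hψπ : ψ < Real.pi := by
    refine lt_of_le_of_ne (by rw [hψ]; exact Real.arccos_le_pi w) ?_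
    intro he
    rw [he, Real.cos_pi] at hcψ
    linarith
  obtain ⟨θ₀, hθ₀⟩ : ∃ t, t = Real.arccos y := ⟨_, rfl⟩
  have hcθ : Real.cos θ₀ = y := by rw [hθ₀]; exact Real.cos_arccos (by linarith) hy1.le
  have hθ0 : 0 < θ₀ := by rw [hθ₀]; exact Real.arccos_pos.2 hy1
  have hθ2 : θ₀ ≤ Real.pi / 2 := by rw [hθ₀]; exact Real.arccos_le_pi_div_two.2 hy0
  rw [← hθ₀, ← hn]
  obtain ⟨j, hj1, hj2⟩ : ∃ j : ℕ, n * θ₀ ≤ ψ + 2 * Real.pi * j ∧
      ψ + 2 * Real.pi * j < n * θ₀ + 2 * Real.pi := by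
    refine ⟨⌈(n * θ₀ - ψ) / (2 * Real.pi)⌉₊, ?_, ?_⟩
    · have := Nat.le_ceil ((n * θ₀ - ψ) / (2 * Real.pi))
      rw [div_le_iff₀ (by positivity)] at this
      linarith
    · rcases le_or_gt 0 ((n * θ₀ - ψ) / (2 * Real.pi)) with hc | hc
      · have h1 := Nat.ceil_lt_add_one hc
        have h2 := mul_lt_mul_of_pos_right h1 (show (0 : ℝ) < 2 * Real.pi by positivity)
        have h3 : ((n * θ₀ - ψ) / (2 * Real.pi) + 1) * (2 * Real.pi) =
            n * θ₀ - ψ + 2 * Real.pi := by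
          field_simp
        rw [h3] at h2
        linarith
      · rw [Nat.ceil_eq_zero.2 hc.le]
        have h1 : 0 < n * θ₀ := by positivity
        rw [Nat.cast_zero, mul_zero]
        linarith
  obtain ⟨t, ht⟩ : ∃ t, t = (ψ + 2 * Real.pi * j) / n := ⟨_, rfl⟩
  have hnt : n * t = ψ + 2 * Real.pi * j := by
    rw [ht]
    field_simp
  have ht0 : θ₀ ≤ t := by
    rw [← hnt] at hj1
    exact le_of_mul_le_mul_left hj1 hn0
  have ht1 : t < θ₀ + 2 * Real.pi / n := by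
    have h1 : n * t < n * (θ₀ + 2 * Real.pi / n) := by
      rw [hnt]
      have h2 : n * (θ₀ + 2 * Real.pi / n) = n * θ₀ + 2 * Real.pi := by field_simp
      rw [h2]
      exact hj2
    exact lt_of_mul_lt_mul_left h1 hn0.le
  have hθπ : θ₀ + 2 * Real.pi / n < Real.pi := by
    have h1 : 2 * Real.pi / n ≤ 2 * Real.pi / 5 := by gcongr
    linarith
  have htpos : 0 < t := hθ0.trans_le ht0
  have htπ : t < Real.pi := ht1.trans hθπ
  have hsin : 0 < Real.sin (t / 2) := Real.sin_pos_of_pos_of_lt_pi (by linarith) (by linarith)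
  have hcos : 0 < Real.cos (t / 2) :=
    Real.cos_pos_of_mem_Ioo ⟨by linarith, by linarith⟩
  have hsint : 0 < Real.sin t := Real.sin_pos_of_pos_of_lt_pi htpos htπ
  have hsinle : Real.sin (θ₀ / 2) ≤ Real.sin (t / 2) :=
    Real.sin_le_sin_of_le_of_le_pi_div_two (by linarith) (by linarith) (by linarith)
  have hsin0 : 0 ≤ Real.sin (θ₀ / 2) :=
    Real.sin_nonneg_of_nonneg_of_le_pi (by linarith) (by linarith)
  have hy2 : y = 1 - 2 * Real.sin (θ₀ / 2) ^ 2 := by rw [← bbt_cos_half, hcθ]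
  have h1y : 0 < 1 - y := by linarith
  obtain ⟨κ, hκ⟩ : ∃ κ, κ = 2 * Real.sin (t / 2) ^ 2 / (1 - y) := ⟨_, rfl⟩
  have hκ1 : 1 ≤ κ := by
    rw [hκ, le_div_iff₀ h1y]
    have : Real.sin (θ₀ / 2) ^ 2 ≤ Real.sin (t / 2) ^ 2 := by gcongr
    linarith
  have hκ0 : 0 < κ := by linarith
  have hκy : κ * (1 - y) = 2 * Real.sin (t / 2) ^ 2 := by
    rw [hκ]
    field_simp
  have hLy : 1 - κ * (1 - y) = Real.cos t := by
    rw [hκy, bbt_cos_half t]
  obtain ⟨α, hα⟩ : ∃ α, α = 1 - 2 / κ := ⟨_, rfl⟩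
  have hα1 : -1 ≤ α := by
    have : 2 / κ ≤ 2 := by
      rw [div_le_iff₀ hκ0]
      linarith
    rw [hα]
    linarith
  -- the comparison function
  have hDer : Der m α 1 fun j x => κ ^ j * TJ (m + 1) j (1 - κ * (1 - x)) := by
    intro i _ x _
    have h1 : HasDerivAt (fun x : ℝ => 1 - κ * (1 - x)) κ x := by
      have h2 := (((hasDerivAt_id x).const_sub 1).const_mul κ).const_sub 1
      simpa using h2
    have h3 := ((TJ_hasDerivAt (m + 1) i (1 - κ * (1 - x))).comp x h1).const_mul (κ ^ i)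
    have h4 : κ ^ i * (TJ (m + 1) (i + 1) (1 - κ * (1 - x)) * κ) =
        κ ^ (i + 1) * TJ (m + 1) (i + 1) (1 - κ * (1 - x)) := by ring
    rw [h4] at h3
    exact h3.hasDerivWithinAt
  have hPm : ∀ x ∈ Icc α 1, ∀ z ∈ Icc α 1, x ≤ z →
      (2 ^ m * (m + 1).factorial : ℝ) * (z - x) ≤
        (fun j x => κ ^ j * TJ (m + 1) j (1 - κ * (1 - x))) m z -
        (fun j x => κ ^ j * TJ (m + 1) j (1 - κ * (1 - x))) m x := by
    intro x _ z _ hxz
    have h1 := TJ_top m (1 - κ * (1 - x)) (1 - κ * (1 - z))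
    have h2 : κ ^ m * TJ (m + 1) m (1 - κ * (1 - z)) - κ ^ m * TJ (m + 1) m (1 - κ * (1 - x)) =
        κ ^ (m + 1) * ((2 ^ m * (m + 1).factorial : ℝ) * (z - x)) := by
      rw [← mul_sub, h1]
      ring
    show _ ≤ κ ^ m * TJ (m + 1) m (1 - κ * (1 - z)) - κ ^ m * TJ (m + 1) m (1 - κ * (1 - x))
    rw [h2]
    have h3 : 1 ≤ κ ^ (m + 1) := one_le_pow₀ hκ1
    have h4 : 0 ≤ (2 ^ m * (m + 1).factorial : ℝ) * (z - x) :=
      mul_nonneg (by positivity) (by linarith)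
    nlinarith
  obtain ⟨X, hX⟩ : ∃ X : ℕ → ℝ, X = fun i : ℕ => 1 - (1 - Real.cos (i * Real.pi / n)) / κ :=
    ⟨_, rfl⟩
  have hXd : ∀ i, X i = 1 - (1 - Real.cos (i * Real.pi / n)) / κ := fun i => by rw [hX]
  have hLX : ∀ i, 1 - κ * (1 - X i) = Real.cos (i * Real.pi / n) := by
    intro i
    rw [hXd]
    field_simp
    ring
  have hang : ∀ i : ℕ, i ≤ m + 1 → (i : ℝ) * Real.pi / n ≤ Real.pi := by
    intro i hi
    rw [div_le_iff₀ hn0, mul_comm Real.pi]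
    have : (i : ℝ) ≤ n := by rw [← hcast]; exact_mod_cast hi
    gcongr
  have hXmem : ∀ i ≤ m + 1, X i ∈ Icc α 1 := by
    intro i _
    have h1 := Real.cos_le_one (i * Real.pi / n)
    have h2 := Real.neg_one_le_cos (i * Real.pi / n)
    rw [hXd, hα]
    constructor
    · have : (1 - Real.cos (i * Real.pi / n)) / κ ≤ 2 / κ := by
        gcongr
        linarith
      linarith
    · have : 0 ≤ (1 - Real.cos (i * Real.pi / n)) / κ := div_nonneg (by linarith) hκ0.le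
      linarith
  have hlt : ∀ {a b : ℝ}, a < b → 1 - (1 - a) / κ < 1 - (1 - b) / κ := by
    intro a b hab
    have : (1 - b) / κ < (1 - a) / κ := by gcongr
    linarith
  have hXlt : ∀ i < m + 1, X (i + 1) < X i := by
    intro i hi
    rw [hXd, hXd]
    apply hlt
    apply Real.cos_lt_cos_of_nonneg_of_le_pi
    · positivity
    · exact hang (i + 1) hi
    · push_cast
      gcongr
      linarith
  have hP0 : ∀ i ≤ m + 1, (fun j x => κ ^ j * TJ (m + 1) j (1 - κ * (1 - x))) 0 (X i) =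
      (-1) ^ i := by
    intro i _
    have h1 := TJ_node (m + 1) i (by omega)
    rw [hcast] at h1
    show κ ^ 0 * TJ (m + 1) 0 (1 - κ * (1 - X i)) = (-1) ^ i
    rw [hLX, h1, pow_zero, one_mul]
  have hjn : 2 * j + 1 ≤ m + 1 := by
    have h1 : n * t < n * Real.pi := by gcongr
    rw [hnt] at h1
    have h2 : (2 * j : ℝ) * Real.pi < n * Real.pi := by linarith
    have h3 : (2 * j : ℝ) < n := lt_of_mul_lt_mul_right h2 hπ.le
    rw [← hcast] at h3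
    have h4 : 2 * j < m + 1 := by exact_mod_cast h3
    omega
  have hyX : y = 1 - (1 - Real.cos t) / κ := by
    rw [← hLy]
    field_simp
    ring
  have hymem : y ∈ Ioo (X (2 * j + 1)) (X (2 * j)) := by
    rw [hXd, hXd]
    constructor
    · rw [hyX]
      apply hlt
      apply Real.cos_lt_cos_of_nonneg_of_le_pi htpos.le (hang _ hjn)
      rw [lt_div_iff₀ hn0, mul_comm t, hnt]
      push_cast
      linarith
    · rw [hyX]
      apply hlt
      apply Real.cos_lt_cos_of_nonneg_of_le_pi (by positivity) htπ.le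
      rw [div_lt_iff₀ hn0, mul_comm t, hnt]
      push_cast
      linarith
  have hyP : (fun j x => κ ^ j * TJ (m + 1) j (1 - κ * (1 - x))) 0 y = c * φ 0 y := by
    show κ ^ 0 * TJ (m + 1) 0 (1 - κ * (1 - y)) = c * φ 0 y
    rw [hLy, TJ_cos, hcast, hnt, pow_zero, one_mul, ← hw, ← hcψ]
    have := Real.cos_add_nat_mul_two_pi ψ j
    rw [← this]
    congr 1
    ring
  have key := branch (m := m) (by omega) (s := 2 ^ m * (m + 1).factorial) (a := α) (b := 1)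
    (by positivity) hDer hPm hXmem hXlt hP0 (h.restrict hα1 le_rfl) hc0.le hc1 hjn hymem hyP
  have hP1 : κ ^ 1 * TJ (m + 1) 1 (1 - κ * (1 - y)) = κ * TJ (m + 1) 1 (Real.cos t) := by
    rw [hLy, pow_one]
  have key : c * φ 1 y ≤ κ * TJ (m + 1) 1 (Real.cos t) := by
    rw [← hP1]
    exact key
  refine key.trans ?_
  have hT := TJ1_cos (m + 1) t
  rw [hcast, hnt] at hT
  have hT2 : TJ (m + 1) 1 (Real.cos t) ≤ n / Real.sin t := by
    rw [le_div_iff₀ hsint, hT]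
    have := Real.sin_le_one (ψ + 2 * Real.pi * j)
    nlinarith
  have hsin2 : Real.sin t = 2 * Real.sin (t / 2) * Real.cos (t / 2) := by
    rw [← Real.sin_two_mul]
    congr 1
    ring
  have htan : Real.tan (t / 2) ≤ Real.tan ((θ₀ + 2 * Real.pi / n) / 2) := by
    apply le_of_lt
    apply Real.tan_lt_tan_of_lt_of_lt_pi_div_two
    · linarith
    · linarith
    · linarith
  calc κ * TJ (m + 1) 1 (Real.cos t) ≤ κ * (n / Real.sin t) := by gcongr
    _ = n * Real.tan (t / 2) / (1 - y) := by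
      rw [hκ, hsin2, Real.tan_eq_sin_div_cos]
      have h1 := hsin.ne'
      have h2 := hcos.ne'
      have h3 := h1y.ne'
      field_simp
    _ ≤ n * Real.tan ((θ₀ + 2 * Real.pi / n) / 2) / (1 - y) := by gcongr

theorem bernstein (m : ℕ) (hm : 4 ≤ m) {φ : ℕ → ℝ → ℝ}
    (h : InF m (2 ^ m * (m + 1).factorial) (-1) 1 φ) {y : ℝ} (hy0 : 0 ≤ y) (hy1 : y < 1) :
    φ 1 y ≤ (m + 1) * Real.tan ((Real.arccos y + 2 * Real.pi / (m + 1)) / 2) / (1 - y) := by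
  by_contra hcon
  rw [not_le] at hcon
  obtain ⟨B, hB⟩ : ∃ B : ℝ, B =
    (m + 1) * Real.tan ((Real.arccos y + 2 * Real.pi / (m + 1)) / 2) / (1 - y) := ⟨_, rfl⟩
  obtain ⟨f, hf⟩ : ∃ f, f = φ 1 y := ⟨_, rfl⟩
  have hB0 : 0 ≤ B := by
    rw [hB]
    have hm' : (4 : ℝ) ≤ m := by exact_mod_cast hm
    have hπ := Real.pi_pos
    have h1 : 0 ≤ Real.arccos y := Real.arccos_nonneg y
    have h2 : Real.arccos y ≤ Real.pi / 2 := Real.arccos_le_pi_div_two.2 hy0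
    have h3 : 2 * Real.pi / ((m : ℝ) + 1) ≤ 2 * Real.pi / 5 := by
      gcongr
      linarith
    have h4 : 0 ≤ 2 * Real.pi / ((m : ℝ) + 1) := by positivity
    have h5 : 0 ≤ Real.tan ((Real.arccos y + 2 * Real.pi / (m + 1)) / 2) :=
      Real.tan_nonneg_of_nonneg_of_le_pi_div_two (by linarith) (by linarith)
    have h6 : 0 < 1 - y := by linarith
    positivity
  rw [← hB, ← hf] at hcon
  have hf0 : 0 < f := hB0.trans_lt hcon
  have key := bbt_fix m hm h hy0 hy1 (c := (B + f) / (2 * f)) (by positivity) (by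
    rw [div_lt_one (by positivity)]
    linarith)
  rw [← hB, ← hf] at key
  have h1 : (B + f) / (2 * f) * f = (B + f) / 2 := by field_simp
  rw [h1] at key
  linarith

end Pool.LK1
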