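import Mathlib

/-!
# LK1 (MP_0732f2_an): the Landau-Kolmogorov problem on a finite interval, first derivative

Definitions.  The order of the class is `n = m + 1`.  A function of the class `W^n_inf[a,b]` with
`‖f‖ ≤ 1`, `‖f^(n)‖ ≤ s` is represented by the family `D` of its derivatives `D 0 = f, …, D m = f^(n-1)`
on the closed interval (one sided derivatives at the end points), the last one being `s`-Lipschitz.
-/

namespace Pool.LK1

open Set

/-- `D 0, …, D m` are a function on `[a,b]` and its derivatives up to the order `m`. -/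
def Der (m : ℕ) (a b : ℝ) (D : ℕ → ℝ → ℝ) : Prop :=
  ∀ j < m, ∀ x ∈ Icc a b, HasDerivWithinAt (D j) (D (j + 1) x) (Icc a b) x

/-- `g` is `s`-Lipschitz on `[a,b]`. -/
def LipOn (s a b : ℝ) (g : ℝ → ℝ) : Prop :=
  ∀ x ∈ Icc a b, ∀ y ∈ Icc a b, |g x - g y| ≤ s * |x - y|

/-- The class `‖f‖ ≤ 1`, `‖f^(m+1)‖ ≤ s` on `[a,b]`. -/
structure InF (m : ℕ) (s a b : ℝ) (D : ℕ → ℝ → ℝ) : Prop where
  der : Der m a b D
  lip : LipOn s a b (D m)
  bd : ∀ x ∈ Icc a b, |D 0 x| ≤ 1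

/-- `N` alternating increments of `h` on `[a,b]`; the rightmost one (from `y 1` to `y 0`) has the sign `s`. -/
def Inc (h : ℝ → ℝ) (a b : ℝ) (N : ℕ) (s : ℝ) : Prop :=
  ∃ y : ℕ → ℝ, (∀ i ≤ N, y i ∈ Icc a b) ∧ (∀ i < N, y (i + 1) < y i) ∧
    ∀ i < N, 0 < s * (-1) ^ i * (h (y i) - h (y (i + 1)))

/-- `N` alternating values of `h` on `[a,b]`; the rightmost one (at `y 0`) has the sign `s`. -/
def Alt (h : ℝ → ℝ) (a b : ℝ) (N : ℕ) (s : ℝ) : Prop :=
  ∃ y : ℕ → ℝ, (∀ i < N, y i ∈ Icc a b) ∧ (∀ i, i + 1 < N → y (i + 1) < y i) ∧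
    ∀ i < N, 0 < s * (-1) ^ i * h (y i)

theorem Der.mono {m : ℕ} {a b : ℝ} {D : ℕ → ℝ → ℝ} (h : Der m a b D) {m' : ℕ} (hm : m' ≤ m) :
    Der m' a b D := fun j hj x hx => h j (lt_of_lt_of_le hj hm) x hx

theorem Der.restrict {m : ℕ} {a b : ℝ} {D : ℕ → ℝ → ℝ} (h : Der m a b D) {a' b' : ℝ}
    (ha : a ≤ a') (hb : b' ≤ b) : Der m a' b' D := fun j hj x hx =>
  (h j hj x ⟨ha.trans hx.1, hx.2.trans hb⟩).mono (Icc_subset_Icc ha hb)

/-- linear combination `P - c D` -/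
theorem Der.sub_smul {m : ℕ} {a b : ℝ} {P D : ℕ → ℝ → ℝ} (hP : Der m a b P) (hD : Der m a b D) (c : ℝ) :
    Der m a b (fun j x => P j x - c * D j x) := fun j hj x hx =>
  (hP j hj x hx).sub ((hD j hj x hx).const_mul c)

theorem Der.neg {m : ℕ} {a b : ℝ} {D : ℕ → ℝ → ℝ} (hD : Der m a b D) :
    Der m a b (fun j x => - D j x) := fun j hj x hx => (hD j hj x hx).neg

theorem InF.restrict {m : ℕ} {s a b : ℝ} {D : ℕ → ℝ → ℝ} (h : InF m s a b D) {a' b' : ℝ}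
    (ha : a ≤ a') (hb : b' ≤ b) : InF m s a' b' D where
  der := h.der.restrict ha hb
  lip := fun x hx y hy => h.lip x ⟨ha.trans hx.1, hx.2.trans hb⟩ y ⟨ha.trans hy.1, hy.2.trans hb⟩
  bd := fun x hx => h.bd x ⟨ha.trans hx.1, hx.2.trans hb⟩

theorem InF.neg {m : ℕ} {s a b : ℝ} {D : ℕ → ℝ → ℝ} (h : InF m s a b D) :
    InF m s a b (fun j x => - D j x) where
  der := h.der.neg
  lip := fun x hx y hy => by
    have := h.lip x hx y hy
    rwa [show -D m x - -D m y = -(D m x - D m y) by ring, abs_neg]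
  bd := fun x hx => by simpa using h.bd x hx

end Pool.LK1
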