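import Mathlib

/-!
# LK1/Num: numerical inequalities

`numA` (`n ≥ 7`): `2 (0.517 (n+1)²)^n ≤ (2n)!`.  Induction.  `n = 7`: `14! = 87178291200`,
`2 (0.517·64)^7 ≤ 8.69·10^10`.  Step: it suffices that `(2n+2)(2n+1) ≥ 0.517 (n+2)^{2n+2}/(n+1)^{2n}`, i.e.
`(2n+2)(2n+1)/(n+1)² = (4n+2)/(n+1) ≥ 0.517 ((n+2)/(n+1))^{2(n+1)}`.  For `7 ≤ n ≤ 11` by `norm_num`; for `n ≥ 11`
use `((n+2)/(n+1))^{2(n+1)} = (1 + 1/(n+1))^{2(n+1)} ≤ e² ≤ 7.3891` (`Real.add_one_le_exp`, `Real.exp_one_lt_d9`) and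
`(4n+2)/(n+1) = 4 - 2/(n+1) ≥ 3.833 ≥ 0.517·7.3891 = 3.8202`.

`numB` (`5 ≤ M ≤ 18`, i.e. `7 ≤ n ≤ 20`): interval_cases, norm_num.

`numC` (`M ≥ 19`): `48 M μ^(M+2) ≤ 48 M` with `μ = 97/100`;
`(M²(M²+2) + 48M) ≤ 0.5014 (M+2)² (2M²+1)` for `M ≥ 19` (`0.97·0.517 = 0.50149`): the left side is
`M⁴ + 2M² + 48M`, the right side `1.0028 M⁴ + 4.01 M³ + …`; fine.
-/

namespace Pool.LK1

private theorem stepA (n : ℕ) (hn : 7 ≤ n) :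
    517 / 1000 * ((n : ℝ) + 2) ^ 2 * (((n : ℝ) + 2) ^ 2) ^ n ≤
      ((2 * n + 2 : ℝ) * (2 * n + 1)) * (((n : ℝ) + 1) ^ 2) ^ n := by
  rcases Nat.lt_or_ge n 11 with h | h
  · interval_cases n <;> norm_num
  · have hn1 : (0 : ℝ) < (n : ℝ) + 1 := by positivity
    have hn11 : (11 : ℝ) ≤ (n : ℝ) := by exact_mod_cast h
    -- (1 + 1/(n+1))^(2(n+1)) ≤ e^2
    have h1 : ((n : ℝ) + 2) / ((n : ℝ) + 1) = 1 / ((n : ℝ) + 1) + 1 := by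
      field_simp
      ring
    have h2 : ((n : ℝ) + 2) / ((n : ℝ) + 1) ≤ Real.exp (1 / ((n : ℝ) + 1)) := by
      rw [h1]
      exact Real.add_one_le_exp _
    have h3 : (((n : ℝ) + 2) / ((n : ℝ) + 1)) ^ (n + 1) ≤ Real.exp 1 := by
      calc (((n : ℝ) + 2) / ((n : ℝ) + 1)) ^ (n + 1)
          ≤ (Real.exp (1 / ((n : ℝ) + 1))) ^ (n + 1) :=
            pow_le_pow_left₀ (by positivity) h2 _
        _ = Real.exp 1 := by
          rw [← Real.exp_nat_mul]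
          congr 1
          push_cast
          field_simp
    have he : Real.exp 1 ≤ 2.7182818286 := Real.exp_one_lt_d9.le
    have h4 : ((((n : ℝ) + 2) / ((n : ℝ) + 1)) ^ (n + 1)) ^ 2 ≤ 7.3891 := by
      have h5 : (((n : ℝ) + 2) / ((n : ℝ) + 1)) ^ (n + 1) ≤ 2.7182818286 := h3.trans he
      have h6 : (0 : ℝ) ≤ (((n : ℝ) + 2) / ((n : ℝ) + 1)) ^ (n + 1) := by positivity
      calc ((((n : ℝ) + 2) / ((n : ℝ) + 1)) ^ (n + 1)) ^ 2 ≤ (2.7182818286 : ℝ) ^ 2 :=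
            pow_le_pow_left₀ h6 h5 2
        _ ≤ 7.3891 := by norm_num
    have h7 : ((n : ℝ) + 2) ^ 2 * (((n : ℝ) + 2) ^ 2) ^ n ≤
        7.3891 * (((n : ℝ) + 1) ^ 2 * (((n : ℝ) + 1) ^ 2) ^ n) := by
      have e1 : ((n : ℝ) + 2) ^ 2 * (((n : ℝ) + 2) ^ 2) ^ n = (((n : ℝ) + 2) ^ (n + 1)) ^ 2 := by
        rw [← pow_succ', ← pow_mul, ← pow_mul, mul_comm]
      have e2 : ((n : ℝ) + 1) ^ 2 * (((n : ℝ) + 1) ^ 2) ^ n = (((n : ℝ) + 1) ^ (n + 1)) ^ 2 := by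
        rw [← pow_succ', ← pow_mul, ← pow_mul, mul_comm]
      rw [e1, e2]
      rw [div_pow, div_pow] at h4
      rw [div_le_iff₀ (by positivity)] at h4
      exact h4
    have h8 : (517 / 1000 : ℝ) * 7.3891 * ((n : ℝ) + 1) ^ 2 ≤ (2 * n + 2 : ℝ) * (2 * n + 1) := by
      nlinarith
    calc 517 / 1000 * ((n : ℝ) + 2) ^ 2 * (((n : ℝ) + 2) ^ 2) ^ n
        = 517 / 1000 * (((n : ℝ) + 2) ^ 2 * (((n : ℝ) + 2) ^ 2) ^ n) := by ring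
      _ ≤ 517 / 1000 * (7.3891 * (((n : ℝ) + 1) ^ 2 * (((n : ℝ) + 1) ^ 2) ^ n)) :=
          mul_le_mul_of_nonneg_left h7 (by norm_num)
      _ = (517 / 1000 : ℝ) * 7.3891 * ((n : ℝ) + 1) ^ 2 * (((n : ℝ) + 1) ^ 2) ^ n := by ring
      _ ≤ ((2 * n + 2 : ℝ) * (2 * n + 1)) * (((n : ℝ) + 1) ^ 2) ^ n :=
          mul_le_mul_of_nonneg_right h8 (by positivity)

theorem numA (n : ℕ) (hn : 7 ≤ n) :
    2 * (517 / 1000 * ((n : ℝ) + 1) ^ 2) ^ n ≤ ((2 * n).factorial : ℝ) := by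
  induction n, hn using Nat.le_induction with
  | base =>
    have : ((2 * 7).factorial : ℝ) = 87178291200 := by norm_num [Nat.factorial]
    rw [this]
    norm_num
  | succ n hn ih =>
    have hf : ((2 * (n + 1)).factorial : ℝ) =
        ((2 * n + 2 : ℝ) * (2 * n + 1)) * ((2 * n).factorial : ℝ) := by
      have : 2 * (n + 1) = 2 * n + 1 + 1 := by ring
      rw [this, Nat.factorial_succ, Nat.factorial_succ]
      push_cast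
      ring
    rw [hf]
    have hs := stepA n hn
    have hc : ((n + 1 : ℕ) : ℝ) + 1 = (n : ℝ) + 2 := by push_cast; ring
    rw [hc]
    have h517 : (0 : ℝ) ≤ (517 / 1000 : ℝ) ^ n := by positivity
    calc 2 * (517 / 1000 * ((n : ℝ) + 2) ^ 2) ^ (n + 1)
        = 2 * (517 / 1000 : ℝ) ^ n *
          (517 / 1000 * ((n : ℝ) + 2) ^ 2 * (((n : ℝ) + 2) ^ 2) ^ n) := by
          rw [pow_succ, mul_pow]
          ring
      _ ≤ 2 * (517 / 1000 : ℝ) ^ n *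
          (((2 * n + 2 : ℝ) * (2 * n + 1)) * (((n : ℝ) + 1) ^ 2) ^ n) :=
          mul_le_mul_of_nonneg_left hs (by positivity)
      _ = ((2 * n + 2 : ℝ) * (2 * n + 1)) * (2 * (517 / 1000 * ((n : ℝ) + 1) ^ 2) ^ n) := by
          rw [mul_pow]
          ring
      _ ≤ ((2 * n + 2 : ℝ) * (2 * n + 1)) * ((2 * n).factorial : ℝ) :=
          mul_le_mul_of_nonneg_left ih (by positivity)

theorem numB (M : ℕ) (h5 : 5 ≤ M) (h18 : M ≤ 18) :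
    ((M : ℝ) ^ 2 * ((M : ℝ) ^ 2 + 2) + 48 * M * (4 / 5 : ℝ) ^ (M + 2)) / ((2 * (M : ℝ) ^ 2 + 1) * (4 / 5 : ℝ))
      ≤ 517 / 1000 * ((M : ℝ) + 2) ^ 2 := by
  rw [div_le_iff₀ (by positivity)]
  interval_cases M <;> norm_num

theorem numC (M : ℕ) (h : 19 ≤ M) :
    ((M : ℝ) ^ 2 * ((M : ℝ) ^ 2 + 2) + 48 * M * (97 / 100 : ℝ) ^ (M + 2))
      / ((2 * (M : ℝ) ^ 2 + 1) * (97 / 100 : ℝ)) ≤ 517 / 1000 * ((M : ℝ) + 2) ^ 2 := by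
  have hM : (19 : ℝ) ≤ (M : ℝ) := by exact_mod_cast h
  rw [div_le_iff₀ (by positivity)]
  have h1 : (97 / 100 : ℝ) ^ (M + 2) ≤ 1 := pow_le_one₀ (by norm_num) (by norm_num)
  have h2 : 48 * (M : ℝ) * (97 / 100 : ℝ) ^ (M + 2) ≤ 48 * (M : ℝ) := by
    have : 48 * (M : ℝ) * (97 / 100 : ℝ) ^ (M + 2) ≤ 48 * (M : ℝ) * 1 :=
      mul_le_mul_of_nonneg_left h1 (by positivity)
    linarith
  have h3 : (M : ℝ) ^ 2 * ((M : ℝ) ^ 2 + 2) + 48 * (M : ℝ) ≤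
      517 / 1000 * ((M : ℝ) + 2) ^ 2 * ((2 * (M : ℝ) ^ 2 + 1) * (97 / 100)) := by
    obtain ⟨t, ht⟩ : ∃ t : ℝ, (M : ℝ) = t + 19 := ⟨(M : ℝ) - 19, by ring⟩
    have ht0 : 0 ≤ t := by linarith
    rw [ht]
    have : 0 ≤ 517 / 1000 * ((t + 19) + 2) ^ 2 * ((2 * (t + 19) ^ 2 + 1) * (97 / 100)) -
        ((t + 19) ^ 2 * ((t + 19) ^ 2 + 2) + 48 * (t + 19)) := by
      ring_nf
      positivity
    linarith
  linarith

end Pool.LK1
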