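import Pool.Agent.LK1.OS
import Pool.Agent.LK1.BBn
import Pool.Agent.LK1.Num

/-!
# LK1/CR0: the bound for a critical value in the standard window

`Theta n` is the bound: `20/3`, `207/19`, `194/11` for `n = 4, 5, 6` and `0.517 n²` for `n ≥ 7`.
-/

namespace Pool.LK1

open Set

noncomputable def Theta (n : ℕ) : ℝ :=
  if n = 4 then 20 / 3 else if n = 5 then 207 / 19 else if n = 6 then 194 / 11 else 517 / 1000 * (n : ℝ) ^ 2

theorem Theta_pos (n : ℕ) (hn : 4 ≤ n) : 0 < Theta n := by
  unfold Theta
  split_ifs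
  · norm_num
  · norm_num
  · norm_num
  · have : (0 : ℝ) < n := by exact_mod_cast (by omega : 0 < n)
    positivity

theorem Theta_lt (n : ℕ) (hn : 4 ≤ n) : Theta n < ((n : ℝ) - 1) ^ 2 := by
  unfold Theta
  split_ifs with h4 h5 h6
  · subst h4; norm_num
  · subst h5; norm_num
  · subst h6; norm_num
  · have h7 : 7 ≤ n := by omega
    have : (7 : ℝ) ≤ n := by exact_mod_cast h7
    nlinarith

/-- `Θ_n^n ((n+1)/n)^(2n) ≤ (2n)!/2` -/
theorem Theta_pow (n : ℕ) (hn : 4 ≤ n) :
    2 * (Theta n * (((n : ℝ) + 1) / n) ^ 2) ^ n ≤ ((2 * n).factorial : ℝ) := by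
  unfold Theta
  split_ifs with h4 h5 h6
  · subst h4; norm_num [Nat.factorial]
  · subst h5; norm_num [Nat.factorial]
  · subst h6; norm_num [Nat.factorial]
  · have h7 : 7 ≤ n := by omega
    have hpos : (0 : ℝ) < n := by exact_mod_cast (by omega : 0 < n)
    have := numA n h7
    have he : 517 / 1000 * (n : ℝ) ^ 2 * (((n : ℝ) + 1) / n) ^ 2 = 517 / 1000 * ((n : ℝ) + 1) ^ 2 := by
      field_simp
    rw [he]
    exact this

/-- the critical value in the standard window -/
theorem window_bound (m : ℕ) (hm : 3 ≤ m) {φ : ℕ → ℝ → ℝ}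
    (h : InF m (2 ^ m * (m + 1).factorial) (-1) 1 φ) {y : ℝ} (hy0 : 0 ≤ y) (hy1 : y < 1) (h2 : φ 2 y = 0) :
    φ 1 y ≤ Theta (m + 1) := by
  obtain ⟨M, rfl⟩ : ∃ M, m = M + 1 := ⟨m - 1, by omega⟩
  have hM : 2 ≤ M := by omega
  have key : ∀ μ : ℝ, 0 < μ → -1 ≤ y - 2 * μ → φ 1 y ≤
      ((M : ℝ) ^ 2 * ((M : ℝ) ^ 2 + 2) + 48 * M * μ ^ (M + 2)) / ((2 * (M : ℝ) ^ 2 + 1) * μ) :=
    fun μ hμ h1 => oneSided_window M hM h hμ h1 hy1.le h2
  unfold Theta
  split_ifs with h4 h5 h6
  · have : M = 2 := by omega
    subst this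
    have := key (1 / 2) (by norm_num) (by linarith)
    norm_num at this ⊢
    linarith
  · have : M = 3 := by omega
    subst this
    have := key (1 / 2) (by norm_num) (by linarith)
    norm_num at this ⊢
    linarith
  · have : M = 4 := by omega
    subst this
    have := key (1 / 2) (by norm_num) (by linarith)
    norm_num at this ⊢
    linarith
  · have h7 : 5 ≤ M := by omega
    have hcast : ((M + 1 + 1 : ℕ) : ℝ) = (M : ℝ) + 2 := by push_cast; ring
    by_cases h18 : M ≤ 18
    · by_cases hy : y < 3 / 5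
      · have := bern_small (M + 1) (by omega) h hy0 hy
        refine this.trans (le_of_eq ?_)
        rw [hcast]; push_cast; ring
      · push Not at hy
        have := key (4 / 5) (by norm_num) (by linarith)
        refine this.trans ?_
        rw [hcast]
        exact numB M h7 h18
    · push Not at h18
      by_cases hy : y < 94 / 100
      · have := bern_large (M + 1) (by omega) h hy0 hy
        refine this.trans (le_of_eq ?_)
        rw [hcast]; push_cast; ring
      · push Not at hy
        have := key (97 / 100) (by norm_num) (by linarith)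
        refine this.trans ?_
        rw [hcast]
        exact numC M (by omega)

end Pool.LK1
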