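import Pool.Agent.LK1.ChebJ

/-!
# LK1/TmEx: choice of the Chebyshev polynomial for a given `σ ≥ ‖T_n^(n)‖`

`n = m + 1`, `σ ≥ 2^m (m+1)! = T_n^(n)(1)` (`TJ_val_one` or `TJ_top`).  There is `q ≥ n` with `T_q^(n)(1) ≤ σ` and
`σ (2n)! < (q+1)^(2n) · 2^n n!`.

Proof.  `T_p^(n)(1) = ∏_{i<n} (p²-i²)/(2i+1)` (`TJ_val_one`) is unbounded in `p` (for `p ≥ n` each factor is at least
`(2i+1)/(2i+1) ≥ 1`... indeed `p² - i² ≥ (i+1)² - i² = 2i+1`, and the factor `i = 0` is `p²`, so it is `≥ p²`).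
Let `q ≥ n` be the least number with `σ < T_{q+1}^(n)(1)`; then `T_q^(n)(1) ≤ σ` (by minimality, or by `σ ≥ T_n^(n)(1)` if
`q = n`; `T_n^(n)(1) = 2^m (m+1)!`, e.g. from `TJ_top` and the derivative, or from the product formula).  And
`T_{q+1}^(n)(1) ≤ (q+1)^(2n)/∏_{i<n}(2i+1) = (q+1)^(2n) 2^n n!/(2n)!` (all factors are nonnegative; for the identity
`∏_{i<n}(2i+1) · 2^n n! = (2n)!` use induction).
-/

namespace Pool.LK1

theorem TJ_nn (m : ℕ) : TJ (m + 1) (m + 1) 1 = 2 ^ m * ((m + 1).factorial : ℝ) := by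
  have h1 := TJ_hasDerivAt (m + 1) m 1
  have h2 : HasDerivAt (TJ (m + 1) m) (2 ^ m * ((m + 1).factorial : ℝ)) 1 := by
    have h3 : TJ (m + 1) m = fun y : ℝ => TJ (m + 1) m 1 + 2 ^ m * ((m + 1).factorial : ℝ) * (y - 1) := by
      funext y
      have := TJ_top m 1 y
      linarith
    rw [h3]
    have h4 : HasDerivAt (fun y : ℝ => y - 1) 1 1 := (hasDerivAt_id (1 : ℝ)).sub_const 1
    have h5 := (h4.const_mul (2 ^ m * ((m + 1).factorial : ℝ))).const_add (TJ (m + 1) m 1)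
    simpa using h5
  exact h1.unique h2

theorem prod_odd (n : ℕ) :
    (∏ i ∈ Finset.range n, (2 * (i : ℝ) + 1)) * (2 ^ n * (n.factorial : ℝ)) = ((2 * n).factorial : ℝ) := by
  induction n with
  | zero => simp
  | succ k ih =>
    rw [Finset.prod_range_succ, show 2 * (k + 1) = (2 * k + 1) + 1 by ring, Nat.factorial_succ (2 * k + 1),
      Nat.factorial_succ (2 * k), Nat.factorial_succ k, pow_succ]
    push_cast
    rw [← ih]
    ring

theorem TJ_mul_prod (q n : ℕ) :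
    TJ q n 1 * (∏ i ∈ Finset.range n, (2 * (i : ℝ) + 1)) =
      ∏ i ∈ Finset.range n, ((q : ℝ) ^ 2 - (i : ℝ) ^ 2) := by
  rw [TJ_val_one, ← Finset.prod_mul_distrib]
  refine Finset.prod_congr rfl fun i _ => ?_
  have : (2 * (i : ℝ) + 1) ≠ 0 := by positivity
  field_simp

theorem TJ_ge (m p : ℕ) (hp : m + 1 ≤ p) : (p : ℝ) ≤ TJ p (m + 1) 1 := by
  rw [TJ_val_one, Finset.prod_range_succ']
  have hp1 : (1 : ℝ) ≤ p := by exact_mod_cast (by omega : 1 ≤ p)
  have h1 : (1 : ℝ) ≤ ∏ k ∈ Finset.range m,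
      (((p : ℝ) ^ 2 - (((k + 1 : ℕ) : ℝ)) ^ 2) / (2 * (((k + 1 : ℕ) : ℝ)) + 1)) := by
    have h00 : (∏ k ∈ Finset.range m, (1 : ℝ)) = 1 := by simp
    rw [← h00]
    apply Finset.prod_le_prod (fun _ _ => zero_le_one)
    intro k hk
    have hk' : k < m := Finset.mem_range.mp hk
    have hkp : (k : ℝ) + 2 ≤ p := by exact_mod_cast (by omega : k + 2 ≤ p)
    have hk0 : (0 : ℝ) ≤ k := Nat.cast_nonneg k
    rw [le_div_iff₀ (by positivity)]
    push_cast
    nlinarith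
  have h2 : (p : ℝ) ≤ ((p : ℝ) ^ 2 - (((0 : ℕ) : ℝ)) ^ 2) / (2 * (((0 : ℕ) : ℝ)) + 1) := by
    simp
    nlinarith
  calc (p : ℝ) = 1 * p := by ring
    _ ≤ _ := mul_le_mul h1 h2 (by positivity) (by linarith)

theorem exists_q (m : ℕ) {σ : ℝ} (hσ : 2 ^ m * ((m + 1).factorial : ℝ) ≤ σ) :
    ∃ q : ℕ, m + 1 ≤ q ∧ TJ q (m + 1) 1 ≤ σ ∧
      σ * ((2 * (m + 1)).factorial : ℝ) < ((q : ℝ) + 1) ^ (2 * (m + 1)) * (2 ^ (m + 1) * ((m + 1).factorial : ℝ)) := by
  classical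
  have hex : ∃ q : ℕ, m + 1 ≤ q ∧ σ < TJ (q + 1) (m + 1) 1 := by
    obtain ⟨N, hN⟩ := exists_nat_gt σ
    refine ⟨max N (m + 1), le_max_right _ _, ?_⟩
    have h1 : ((max N (m + 1) + 1 : ℕ) : ℝ) ≤ TJ (max N (m + 1) + 1) (m + 1) 1 :=
      TJ_ge m _ (le_trans (le_max_right N (m + 1)) (Nat.le_succ _))
    have h2 : (N : ℝ) ≤ ((max N (m + 1) + 1 : ℕ) : ℝ) := by
      exact_mod_cast le_trans (le_max_left N (m + 1)) (Nat.le_succ _)
    linarith
  obtain ⟨hq1, hq2⟩ := Nat.find_spec hex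
  refine ⟨Nat.find hex, hq1, ?_, ?_⟩
  · rcases Nat.eq_or_lt_of_le hq1 with h | h
    · rw [← h, TJ_nn]
      exact hσ
    · have hmin := Nat.find_min hex (m := Nat.find hex - 1) (by omega)
      have h3 : Nat.find hex - 1 + 1 = Nat.find hex := by omega
      rw [h3] at hmin
      by_contra hcon
      exact hmin ⟨by omega, not_le.mp hcon⟩
  · set q := Nat.find hex with hq
    have hQ : (0 : ℝ) < 2 ^ (m + 1) * ((m + 1).factorial : ℝ) := by positivity
    have hP : (0 : ℝ) < ∏ i ∈ Finset.range (m + 1), (2 * (i : ℝ) + 1) :=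
      Finset.prod_pos fun i _ => by positivity
    have h4 : σ * (∏ i ∈ Finset.range (m + 1), (2 * (i : ℝ) + 1)) < ((q : ℝ) + 1) ^ (2 * (m + 1)) := by
      calc σ * (∏ i ∈ Finset.range (m + 1), (2 * (i : ℝ) + 1))
          < TJ (q + 1) (m + 1) 1 * (∏ i ∈ Finset.range (m + 1), (2 * (i : ℝ) + 1)) :=
            mul_lt_mul_of_pos_right hq2 hP
        _ = ∏ i ∈ Finset.range (m + 1), (((q + 1 : ℕ) : ℝ) ^ 2 - (i : ℝ) ^ 2) := TJ_mul_prod _ _
        _ ≤ ∏ _i ∈ Finset.range (m + 1), (((q : ℝ) + 1) ^ 2) := by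
            apply Finset.prod_le_prod
            · intro i hi
              have hi' : i < m + 1 := Finset.mem_range.mp hi
              have : (i : ℝ) ≤ ((q + 1 : ℕ) : ℝ) := by exact_mod_cast (by omega : i ≤ q + 1)
              have h0 : (0 : ℝ) ≤ i := Nat.cast_nonneg i
              nlinarith
            · intro i _
              push_cast
              have h0 : (0 : ℝ) ≤ (i : ℝ) ^ 2 := by positivity
              linarith
        _ = ((q : ℝ) + 1) ^ (2 * (m + 1)) := by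
            rw [Finset.prod_const, Finset.card_range, ← pow_mul]
    rw [← prod_odd (m + 1)]
    calc σ * ((∏ i ∈ Finset.range (m + 1), (2 * (i : ℝ) + 1)) * (2 ^ (m + 1) * ((m + 1).factorial : ℝ)))
        = (σ * (∏ i ∈ Finset.range (m + 1), (2 * (i : ℝ) + 1))) * (2 ^ (m + 1) * ((m + 1).factorial : ℝ)) := by ring
      _ < _ := mul_lt_mul_of_pos_right h4 hQ

end Pool.LK1
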