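import Pool.Agent.LK1.CR0
import Pool.Agent.LK1.TmEx

/-!
# LK1/Crit: an interior critical value of `|f'|` is smaller than the end point value
-/

namespace Pool.LK1

open Set

/-- `crit_nonneg`: the case `x0 ≥ 0`, `φ'(x0)` without absolute value.  `E` is any number with
`D'(1) ≤ E` for all members of the class.

Proof.  Let `σn = 2^m (m+1)!`, `n = m + 1`.
* `σ ≤ σn`: `InF` is monotone in `σ`, `window_bound` gives `φ'(x0) ≤ Θ_n < (n-1)² = T_{n-1}'(1) ≤ E`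
  (`TJ_inF_low`, `TJ_one_one`, `Theta_lt`).
* `σ > σn`: let `ℓ = (σn/σ)^(1/n) ∈ (0,1)`, `ℓ^n = σn/σ`.  Let `w = min x0 (1 - ℓ)`; then `-1 ≤ w - ℓ`, `w + ℓ ≤ 1`
  and `y0 = (x0 - w)/ℓ ∈ [0,1)` (if `x0 ≤ 1-ℓ` then `y0 = 0`, else `y0 = (x0 - 1 + ℓ)/ℓ < 1` as `x0 < 1`).
  `ψ j y = ℓ^j φ j (w + ℓ y)` is in the class with the constant `σ ℓ^(m+1) = σn` (`InF.rescale`), `ψ 2 y0 = 0`,
  so `ℓ φ'(x0) ≤ Θ_n`.  With `q` from `exists_q`: `(Θ_n/ℓ)^n = Θ_n^n σ/σn < Θ_n^n (q+1)^(2n) · 2/(2n)!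
  ≤ ((q+1)² (n/(n+1))²)^n ≤ (q²)^n` by `Theta_pow` and `(q+1)/q ≤ (n+1)/n`.  So
  `φ'(x0) ≤ Θ_n/ℓ < q² = T_q'(1) ≤ E` (`TJ_inF`, `TJ_one_one`). -/
theorem crit_nonneg (m : ℕ) (hm : 3 ≤ m) {σ E : ℝ} (hσ : 0 < σ)
    (hE : ∀ D : ℕ → ℝ → ℝ, InF m σ (-1) 1 D → D 1 1 ≤ E) {φ : ℕ → ℝ → ℝ} (h : InF m σ (-1) 1 φ)
    {x : ℝ} (hx0 : 0 ≤ x) (hx1 : x < 1) (h2 : φ 2 x = 0) : φ 1 x < E := by
  have hσn : (0 : ℝ) < 2 ^ m * ((m + 1).factorial : ℝ) := by positivity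
  have hΘ0 := Theta_pos (m + 1) (by omega)
  rcases le_or_gt σ (2 ^ m * ((m + 1).factorial : ℝ)) with hle | hgt
  · have h' : InF m (2 ^ m * (m + 1).factorial) (-1) 1 φ :=
      ⟨h.der, fun y hy z hz => (h.lip y hy z hz).trans
        (mul_le_mul_of_nonneg_right hle (abs_nonneg _)), h.bd⟩
    have h3 := window_bound m hm h' hx0 hx1 h2
    have h4 := Theta_lt (m + 1) (by omega)
    have h5 := hE (TJ m) (TJ_inF_low m hσ.le)
    rw [TJ_one_one] at h5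
    push_cast at h4
    have h6 : ((m : ℝ) + 1 - 1) ^ 2 = (m : ℝ) ^ 2 := by ring
    rw [h6] at h4
    linarith
  · obtain ⟨ℓ, hℓ0, hℓ1, hℓn⟩ : ∃ ℓ : ℝ, 0 < ℓ ∧ ℓ < 1 ∧
        σ * ℓ ^ (m + 1) = 2 ^ m * ((m + 1).factorial : ℝ) := by
      have hr : 0 < 2 ^ m * ((m + 1).factorial : ℝ) / σ := div_pos hσn hσ
      have hr1 : 2 ^ m * ((m + 1).factorial : ℝ) / σ < 1 := (div_lt_one hσ).2 hgt
      refine ⟨(2 ^ m * ((m + 1).factorial : ℝ) / σ) ^ ((1 : ℝ) / ((m + 1 : ℕ) : ℝ)),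
        Real.rpow_pos_of_pos hr _, ?_, ?_⟩
      · exact Real.rpow_lt_one hr.le hr1 (by positivity)
      · rw [← Real.rpow_natCast, ← Real.rpow_mul hr.le, one_div,
          inv_mul_cancel₀ (by positivity), Real.rpow_one]
        field_simp
    obtain ⟨w, hw⟩ : ∃ w, w = min x (1 - ℓ) := ⟨_, rfl⟩
    have hw1 : w ≤ x := by rw [hw]; exact min_le_left _ _
    have hw2 : w ≤ 1 - ℓ := by rw [hw]; exact min_le_right _ _
    have hw3 : -1 ≤ w - ℓ := by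
      rw [hw]
      rcases min_choice x (1 - ℓ) with e | e <;> rw [e] <;> linarith
    have hw4 : x - w < ℓ := by
      rw [hw]
      rcases min_choice x (1 - ℓ) with e | e <;> rw [e] <;> linarith
    have hψ := h.rescale (u := w) hℓ0 hw3 (by linarith)
    rw [hℓn] at hψ
    have hy : w + ℓ * ((x - w) / ℓ) = x := by
      field_simp
      ring
    have h3 := window_bound m hm hψ (y := (x - w) / ℓ)
      (div_nonneg (by linarith) hℓ0.le) (by rw [div_lt_one hℓ0]; exact hw4)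
      (by simp only [hy, h2, mul_zero])
    simp only [hy, pow_one] at h3
    obtain ⟨q, hq1, hq2, hq3⟩ := exists_q m hgt.le
    have hqE := hE (TJ q) (TJ_inF q m hq2)
    rw [TJ_one_one] at hqE
    have hTp := Theta_pow (m + 1) (by omega)
    obtain ⟨Θ, hΘ⟩ : ∃ Θ, Θ = Theta (m + 1) := ⟨_, rfl⟩
    rw [← hΘ] at hTp h3 hΘ0
    have hF : (0 : ℝ) < ((2 * (m + 1)).factorial : ℝ) := by positivity
    have hq0 : (0 : ℝ) < (q : ℝ) := by exact_mod_cast (by omega : 0 < q)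
    have hn0 : (0 : ℝ) < ((m + 1 : ℕ) : ℝ) := by positivity
    obtain ⟨c, hc⟩ : ∃ c : ℝ, c = ((((m + 1 : ℕ) : ℝ) + 1) / ((m + 1 : ℕ) : ℝ)) ^ 2 := ⟨_, rfl⟩
    rw [← hc, mul_pow] at hTp
    have hc0 : 0 < c := by rw [hc]; positivity
    have hcq : ((q : ℝ) + 1) ^ (2 * (m + 1)) ≤ c ^ (m + 1) * (q : ℝ) ^ (2 * (m + 1)) := by
      rw [pow_mul, pow_mul, ← mul_pow]
      refine pow_le_pow_left₀ (by positivity) ?_ _
      rw [hc, ← mul_pow]
      refine pow_le_pow_left₀ (by positivity) ?_ _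
      rw [div_mul_eq_mul_div, le_div_iff₀ hn0]
      have : ((m + 1 : ℕ) : ℝ) ≤ (q : ℝ) := by exact_mod_cast hq1
      nlinarith
    have hΘn : 0 < Θ ^ (m + 1) := pow_pos hΘ0 _
    have hkey : Θ ^ (m + 1) * σ < (q : ℝ) ^ (2 * (m + 1)) * (2 ^ m * ((m + 1).factorial : ℝ)) := by
      have e1 : Θ ^ (m + 1) * σ * ((2 * (m + 1)).factorial : ℝ) <
          (q : ℝ) ^ (2 * (m + 1)) * (2 ^ m * ((m + 1).factorial : ℝ)) *
            ((2 * (m + 1)).factorial : ℝ) := by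
        calc Θ ^ (m + 1) * σ * ((2 * (m + 1)).factorial : ℝ)
            = Θ ^ (m + 1) * (σ * ((2 * (m + 1)).factorial : ℝ)) := by ring
          _ < Θ ^ (m + 1) * (((q : ℝ) + 1) ^ (2 * (m + 1)) *
                (2 ^ (m + 1) * ((m + 1).factorial : ℝ))) := mul_lt_mul_of_pos_left hq3 hΘn
          _ ≤ Θ ^ (m + 1) * ((c ^ (m + 1) * (q : ℝ) ^ (2 * (m + 1))) *
                (2 ^ (m + 1) * ((m + 1).factorial : ℝ))) := by
              refine mul_le_mul_of_nonneg_left ?_ hΘn.le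
              exact mul_le_mul_of_nonneg_right hcq (by positivity)
          _ = (2 * (Θ ^ (m + 1) * c ^ (m + 1))) *
                ((q : ℝ) ^ (2 * (m + 1)) * (2 ^ m * ((m + 1).factorial : ℝ))) := by
              rw [pow_succ (2 : ℝ) m]
              ring
          _ ≤ ((2 * (m + 1)).factorial : ℝ) *
                ((q : ℝ) ^ (2 * (m + 1)) * (2 ^ m * ((m + 1).factorial : ℝ))) := by
              exact mul_le_mul_of_nonneg_right hTp (by positivity)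
          _ = _ := by ring
      exact lt_of_mul_lt_mul_right e1 hF.le
    have hlt : Θ < (q : ℝ) ^ 2 * ℓ := by
      refine lt_of_pow_lt_pow_left₀ (m + 1) (by positivity) ?_
      rw [mul_pow, ← pow_mul]
      have e2 : Θ ^ (m + 1) * σ < ((q : ℝ) ^ (2 * (m + 1)) * ℓ ^ (m + 1)) * σ := by
        calc Θ ^ (m + 1) * σ < (q : ℝ) ^ (2 * (m + 1)) * (2 ^ m * ((m + 1).factorial : ℝ)) := hkey
          _ = _ := by rw [← hℓn]; ring
      exact lt_of_mul_lt_mul_right e2 hσ.le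
    have h7 : ℓ * φ 1 x < ℓ * (q : ℝ) ^ 2 := by
      calc ℓ * φ 1 x ≤ Θ := h3
        _ < (q : ℝ) ^ 2 * ℓ := hlt
        _ = _ := by ring
    have h8 := lt_of_mul_lt_mul_left h7 hℓ0.le
    linarith

/-- critical values in the interior: `|φ'(x)| < E` -/
theorem crit_lt (m : ℕ) (hm : 3 ≤ m) {σ E : ℝ} (hσ : 0 < σ)
    (hE : ∀ D : ℕ → ℝ → ℝ, InF m σ (-1) 1 D → D 1 1 ≤ E) {φ : ℕ → ℝ → ℝ} (h : InF m σ (-1) 1 φ)
    {x : ℝ} (hx : x ∈ Ioo (-1 : ℝ) 1) (h2 : φ 2 x = 0) : |φ 1 x| < E := by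
  have key : ∀ (ψ : ℕ → ℝ → ℝ) (y : ℝ), InF m σ (-1) 1 ψ → y ∈ Ioo (-1 : ℝ) 1 → ψ 2 y = 0 →
      ψ 1 y < E := by
    intro ψ y hψ hy hy2
    rcases le_or_gt 0 y with h0 | h0
    · exact crit_nonneg m hm hσ hE hψ h0 hy.2 hy2
    · have h3 := crit_nonneg m hm hσ hE hψ.reflect (x := -y) (by linarith) (by linarith [hy.1])
        (by simp [hy2])
      simpa using h3
  rw [abs_lt]
  constructor
  · have := key _ x h.neg hx (by simp [h2])
    linarith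
  · exact key φ x h hx h2

end Pool.LK1
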