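import Pool.Agent.LK1.Crit
import Pool.Agent.LKI.G3

/-!
# LK1/Final: the case `k = 1` for all `n ≥ 4` and all `σ > 0`

Uses the structure theory of `Pool/Agent/LKI` (existence of Zolotarev splines, extremality and uniqueness at the
end point for every `σ`).
-/

open Set

namespace Pool.LK1

open Pool.Agent.LKI (Cls M IsZolotarev D InW KSpline)

section

variable {n : ℕ} {σ q : ℝ}

private theorem uI : UniqueDiffOn ℝ (Icc (-1 : ℝ) 1) := uniqueDiffOn_Icc (by norm_num)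

theorem cls_deriv {f : ℝ → ℝ} (hf : f ∈ Cls n σ) {j : ℕ} (hj : j + 1 < n)
    {x : ℝ} (hx : x ∈ Icc (-1 : ℝ) 1) :
    HasDerivWithinAt (D f j) (D f (j + 1) x) (Icc (-1) 1) x := by
  have h1 : DifferentiableOn ℝ (iteratedDerivWithin j f (Icc (-1) 1)) (Icc (-1) 1) := by
    refine hf.1.differentiableOn_iteratedDerivWithin ?_ uI
    have : j < n - 1 := by omega
    exact_mod_cast this
  have h2 := (h1 x hx).hasDerivWithinAt
  unfold D
  rw [iteratedDerivWithin_succ]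
  exact h2

theorem D_zero (f : ℝ → ℝ) (x : ℝ) : D f 0 x = f x := by
  unfold D
  rw [iteratedDerivWithin_zero]

/-- a member of the class as a family of derivatives -/
theorem cls_inF {m : ℕ} {f : ℝ → ℝ} (hf : f ∈ Cls (m + 1) σ) : InF m σ (-1) 1 (fun j => D f j) where
  der := fun _ hj x hx => cls_deriv hf (by omega) hx
  lip := fun x hx y hy => hf.2.2 x hx y hy
  bd := fun x hx => by
    have := hf.2.1 x hx
    simpa [D_zero] using this

/-- a family of derivatives on `[-1,1]` gives a member of the class `W` on `[0, 2q]` -/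
theorem inF_to_W {m : ℕ} (hq : 0 < q) (hσ : q ^ (m + 1) = σ) {F : ℕ → ℝ → ℝ} (hF : InF m σ (-1) 1 F) :
    InW (m + 1) (Icc 0 (2 * q)) (fun j t => (-1 / q) ^ j * F j (1 - t / q)) := by
  have hmaps : ∀ t ∈ Icc (0 : ℝ) (2 * q), 1 - t / q ∈ Icc (-1 : ℝ) 1 := by
    intro t ht
    have h1 : 0 ≤ t / q := div_nonneg ht.1 hq.le
    have h2 : t / q ≤ 2 := by
      rw [div_le_iff₀ hq]; exact ht.2
    constructor <;> linarith
  refine ⟨⟨?_, ?_⟩, ?_⟩
  · intro j hj t ht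
    have h1 := hF.der j (by omega) _ (hmaps t ht)
    have h2 : HasDerivWithinAt (fun t : ℝ => 1 - t / q) (-1 / q) (Icc 0 (2 * q)) t := by
      have h3 := ((hasDerivAt_id t).div_const q).const_sub 1
      have h4 : -1 / q = -(1 / q) := by ring
      rw [h4]
      exact h3.hasDerivWithinAt
    have h5 := h1.comp t h2 (fun t ht => hmaps t ht)
    have h6 := h5.const_mul ((-1 / q) ^ j)
    refine h6.congr_deriv ?_
    rw [pow_succ]
    ring
  · intro s hs t ht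
    have h1 := hF.lip _ (hmaps s hs) _ (hmaps t ht)
    have h2 : (1 - s / q) - (1 - t / q) = -(1 / q) * (s - t) := by ring
    rw [h2, abs_mul, abs_neg, abs_of_pos (by positivity : (0 : ℝ) < 1 / q)] at h1
    simp only [Nat.add_sub_cancel]
    rw [← mul_sub, abs_mul, abs_pow, abs_div, abs_neg, abs_one, abs_of_pos hq]
    have h3 : (1 / q) ^ m * |F m (1 - s / q) - F m (1 - t / q)| ≤
        (1 / q) ^ m * (σ * (1 / q * |s - t|)) :=
      mul_le_mul_of_nonneg_left h1 (by positivity)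
    refine h3.trans (le_of_eq ?_)
    have h4 : (1 / q) ^ m * (1 / q) = (1 / q) ^ (m + 1) := by
      rw [← pow_succ]
    have h5 : (1 / q) ^ (m + 1) * σ = 1 := by
      rw [← hσ, ← mul_pow, one_div_mul_cancel hq.ne', one_pow]
    calc (1 / q) ^ m * (σ * (1 / q * |s - t|))
        = ((1 / q) ^ m * (1 / q)) * σ * |s - t| := by ring
      _ = 1 * |s - t| := by rw [h4, h5]
  · intro t ht
    have := hF.bd _ (hmaps t ht)
    simpa using this

/-- the factor `(-1/q)^k` has absolute value `(q^k)⁻¹` -/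
private theorem abs_fac (hq : 0 < q) (k : ℕ) (y : ℝ) :
    |(-1 / q) ^ k * y| = (q ^ k)⁻¹ * |y| := by
  rw [abs_mul, abs_pow, abs_div, abs_neg, abs_one, abs_of_pos hq, one_div, inv_pow]

private theorem sgn_fac (k : ℕ) (y : ℝ) :
    (-1) ^ k * ((-1 / q) ^ k * y) = (q ^ k)⁻¹ * y := by
  rw [← mul_assoc, ← mul_pow]
  congr 1
  rw [← inv_pow]
  congr 1
  ring

private theorem back (hq : 0 < q) (x : ℝ) : 1 - q * (1 - x) / q = x := by
  field_simp
  ring

/-- the end point estimate for all families of derivatives -/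
theorem le_right_inF {m : ℕ} (hm : 1 ≤ m) (hσ : 0 < σ) {T : ℝ → ℝ} (hT : IsZolotarev (m + 1) σ T)
    {F : ℕ → ℝ → ℝ} (hF : InF m σ (-1) 1 F) {k : ℕ} (hk : k ≤ m) : |F k 1| ≤ D T k 1 := by
  obtain ⟨q, hq, hqn⟩ : ∃ q : ℝ, 0 < q ∧ q ^ (m + 1) = σ :=
    ⟨σ ^ (((m + 1 : ℕ) : ℝ)⁻¹), Real.rpow_pos_of_pos hσ _, Real.rpow_inv_natCast_pow hσ.le (by omega)⟩
  obtain ⟨P, ξ, τ, hK⟩ := Pool.Agent.LKI.zol_to_kspline (by omega) hq hqn hT
  have h := hK.extremal (by omega) (inF_to_W hq hqn hF) k (by omega)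
  simp only [zero_div, sub_zero] at h
  rw [abs_fac hq, sgn_fac] at h
  have hpos : 0 < (q ^ k)⁻¹ := by positivity
  exact le_of_mul_le_mul_left h hpos

theorem pos_right {m : ℕ} (hm : 1 ≤ m) (hσ : 0 < σ) {T : ℝ → ℝ}
    (hT : IsZolotarev (m + 1) σ T) {k : ℕ} (hk : k ≤ m) : 0 < D T k 1 := by
  obtain ⟨q, hq, hqn⟩ : ∃ q : ℝ, 0 < q ∧ q ^ (m + 1) = σ :=
    ⟨σ ^ (((m + 1 : ℕ) : ℝ)⁻¹), Real.rpow_pos_of_pos hσ _, Real.rpow_inv_natCast_pow hσ.le (by omega)⟩
  obtain ⟨P, ξ, τ, hK⟩ := Pool.Agent.LKI.zol_to_kspline (by omega) hq hqn hT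
  have h := hK.ge_one (by omega) k (by omega)
  simp only [zero_div, sub_zero] at h
  rw [sgn_fac] at h
  have hpos : 0 < (q ^ k)⁻¹ := by positivity
  by_contra hc
  have := mul_nonpos_of_nonneg_of_nonpos hpos.le (not_lt.mp hc)
  linarith

theorem refl_abs {m : ℕ} {f : ℝ → ℝ} (hf : f ∈ Cls (m + 1) σ) {k : ℕ} (hk : k ≤ m) :
    |D (fun x => f (-x)) k 1| = |D f k (-1)| := by
  rw [(Pool.Agent.LKI.cls_refl (by omega) hf).2 k (by omega) 1 (by norm_num), abs_mul, abs_pow, abs_neg,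
    abs_one, one_pow, one_mul]

/-- interior values are smaller than the end point value -/
theorem lt_mid {m : ℕ} (hm : 3 ≤ m) (hσ : 0 < σ) {T : ℝ → ℝ} (hT : IsZolotarev (m + 1) σ T)
    {f : ℝ → ℝ} (hf : f ∈ Cls (m + 1) σ) {x : ℝ} (hx : x ∈ Ioo (-1 : ℝ) 1) : |D f 1 x| < D T 1 1 := by
  have hF := cls_inF hf
  have hE : ∀ G : ℕ → ℝ → ℝ, InF m σ (-1) 1 G → G 1 1 ≤ D T 1 1 := fun G hG =>
    (le_abs_self _).trans (le_right_inF (by omega) hσ hT hG (by omega))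
  have hcrit : ∀ y ∈ Ioo (-1 : ℝ) 1, D f 2 y = 0 → |D f 1 y| < D T 1 1 := fun y hy h2 =>
    crit_lt m hm hσ hE hF hy h2
  have hcont : ContinuousOn (fun y => |D f 1 y|) (Icc (-1 : ℝ) 1) := by
    have h1 : ContinuousOn (D f 1) (Icc (-1 : ℝ) 1) := fun y hy =>
      (hF.der 1 (by omega) y hy).continuousWithinAt
    exact h1.abs
  -- an interior maximum point of `|f'|` is a critical point
  have hmax : ∀ y ∈ Ioo (-1 : ℝ) 1, (∀ z ∈ Icc (-1 : ℝ) 1, |D f 1 z| ≤ |D f 1 y|) → D f 2 y = 0 := by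
    intro y hy hz
    have hd : HasDerivAt (D f 1) (D f 2 y) y :=
      (hF.der 1 (by omega) y ⟨hy.1.le, hy.2.le⟩).hasDerivAt (Icc_mem_nhds hy.1 hy.2)
    have hnh : Icc (-1 : ℝ) 1 ∈ nhds y := Icc_mem_nhds hy.1 hy.2
    rcases le_total 0 (D f 1 y) with h0 | h0
    · have : IsLocalMax (D f 1) y := by
        filter_upwards [hnh] with z hz'
        have := hz z hz'
        rw [abs_of_nonneg h0] at this
        exact (le_abs_self _).trans this
      exact this.hasDerivAt_eq_zero hd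
    · have : IsLocalMin (D f 1) y := by
        filter_upwards [hnh] with z hz'
        have := hz z hz'
        rw [abs_of_nonpos h0] at this
        have h3 := neg_abs_le (D f 1 z)
        linarith
      exact this.hasDerivAt_eq_zero hd
  by_contra hcon
  push Not at hcon
  obtain ⟨x0, hx0, hx0m⟩ := isCompact_Icc.exists_isMaxOn (nonempty_Icc.mpr (by norm_num)) hcont
  have hm0 : ∀ z ∈ Icc (-1 : ℝ) 1, |D f 1 z| ≤ |D f 1 x0| := fun z hz => hx0m hz
  rcases eq_or_lt_of_le hx0.1 with h1 | h1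
  · -- `x0 = -1`
    have h2 : |D f 1 x0| ≤ D T 1 1 := by
      rw [← h1, ← refl_abs hf (by omega)]
      exact le_right_inF (by omega) hσ hT (cls_inF (Pool.Agent.LKI.cls_refl (by omega) hf).1) (by omega)
    have h3 : ∀ z ∈ Icc (-1 : ℝ) 1, |D f 1 z| ≤ |D f 1 x| := fun z hz => (hm0 z hz).trans (h2.trans hcon)
    exact absurd (hcrit x hx (hmax x hx h3)) (not_lt.mpr hcon)
  rcases eq_or_lt_of_le hx0.2 with h2 | h2
  · have h2' : |D f 1 x0| ≤ D T 1 1 := by
      rw [h2]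
      exact le_right_inF (by omega) hσ hT hF (by omega)
    have h3 : ∀ z ∈ Icc (-1 : ℝ) 1, |D f 1 z| ≤ |D f 1 x| := fun z hz => (hm0 z hz).trans (h2'.trans hcon)
    exact absurd (hcrit x hx (hmax x hx h3)) (not_lt.mpr hcon)
  · have h3 := hcrit x0 ⟨h1, h2⟩ (hmax x0 ⟨h1, h2⟩ hm0)
    have h4 := hm0 x ⟨hx.1.le, hx.2.le⟩
    linarith

end

theorem main (n : ℕ) (hn : 4 ≤ n) (σ : ℝ) (hσ : 0 < σ) :
    (∃ T, IsZolotarev n σ T) ∧ ∀ T, IsZolotarev n σ T →
      M n 1 σ = D T 1 1 ∧ (∀ f ∈ Cls n σ, ∀ x ∈ Ioo (-1 : ℝ) 1, |D f 1 x| < M n 1 σ) ∧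
      ∃ c : ℝ, -1 ≤ c ∧ c < 1 ∧ |T c| = 1 ∧ {x ∈ Icc c 1 | |T x| = 1}.ncard = n ∧
        ∀ f ∈ Cls n σ,
          ((∃ x ∈ Icc (-1 : ℝ) 1, |D f 1 x| = M n 1 σ) ↔
            ∃ s : ℝ, (s = 1 ∨ s = -1) ∧
              ((∀ x ∈ Icc c 1, f x = s * T x) ∨ ∀ x ∈ Icc c 1, f (-x) = s * T x)) := by
  obtain ⟨q, hq, hqn⟩ : ∃ q : ℝ, 0 < q ∧ q ^ n = σ :=
    ⟨σ ^ ((n : ℝ)⁻¹), Real.rpow_pos_of_pos hσ _, Real.rpow_inv_natCast_pow hσ.le (by omega)⟩
  obtain ⟨m, rfl⟩ : ∃ m, n = m + 1 := ⟨n - 1, by omega⟩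
  refine ⟨?_, fun T hT => ?_⟩
  · obtain ⟨F, P, ξ, τ, hF⟩ := Pool.Agent.LKI.exists_KSpline (n := m + 1) (by omega) (L := 2 * q) (by positivity)
    exact ⟨_, Pool.Agent.LKI.kspline_to_zol (by omega) hq hqn hF⟩
  have hTC : T ∈ Cls (m + 1) σ := hT.1
  have hlt : ∀ f ∈ Cls (m + 1) σ, ∀ x ∈ Ioo (-1 : ℝ) 1, |D f 1 x| < D T 1 1 := fun f hf x hx =>
    lt_mid (by omega) hσ hT hf hx
  have hle : ∀ f ∈ Cls (m + 1) σ, ∀ x ∈ Icc (-1 : ℝ) 1, |D f 1 x| ≤ D T 1 1 := by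
    intro f hf x hx
    rcases eq_or_lt_of_le hx.1 with h1 | h1
    · rw [← h1, ← refl_abs hf (by omega)]
      exact le_right_inF (by omega) hσ hT (cls_inF (Pool.Agent.LKI.cls_refl (by omega) hf).1) (by omega)
    rcases eq_or_lt_of_le hx.2 with h2 | h2
    · rw [h2]; exact le_right_inF (by omega) hσ hT (cls_inF hf) (by omega)
    exact (hlt f hf x ⟨h1, h2⟩).le
  have hTpos : 0 < D T 1 1 := pos_right (by omega) hσ hT (by omega)
  have hM : M (m + 1) 1 σ = D T 1 1 := by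
    unfold M
    apply le_antisymm
    · refine csSup_le ?_ ?_
      · exact ⟨|D T 1 1|, T, hTC, 1, by norm_num, rfl⟩
      · rintro y ⟨f, hf, x, hx, rfl⟩
        exact hle f hf x hx
    · have habs : |D T 1 1| = D T 1 1 := abs_of_pos hTpos
      refine le_csSup ?_ ?_
      · refine ⟨D T 1 1, ?_⟩
        rintro y ⟨f, hf, x, hx, rfl⟩
        exact hle f hf x hx
      · exact ⟨T, hTC, 1, by norm_num, habs.symm⟩
  refine ⟨hM, fun f hf x hx => by rw [hM]; exact hlt f hf x hx, ?_⟩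
  obtain ⟨P, ξ, τ, hK⟩ := Pool.Agent.LKI.zol_to_kspline (by omega) hq hqn hT
  obtain ⟨c', hc0, hcL, hc1, hcard, huni⟩ := Pool.Agent.LKI.end_unique (by omega) (L := 2 * q) (by positivity) hK
  have hcq : c' / q ≤ 2 := by rw [div_le_iff₀ hq]; exact hcL
  have hcq0 : 0 < c' / q := div_pos hc0 hq
  have himg : {x ∈ Icc (1 - c' / q) 1 | |T x| = 1} =
      (fun t => 1 - t / q) '' {t ∈ Icc 0 c' | |(-1 / q) ^ 0 * D T 0 (1 - t / q)| = 1} := by
    ext x
    simp only [mem_Icc, mem_image, pow_zero, one_mul, D_zero]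
    constructor
    · rintro ⟨⟨h1, h2⟩, h3⟩
      have hx0 : q * (1 - x) ≤ c' := by
        have : 1 - x ≤ c' / q := by linarith
        rw [le_div_iff₀ hq] at this
        linarith
      exact ⟨q * (1 - x), ⟨⟨mul_nonneg hq.le (by linarith), hx0⟩, by rw [back hq]; exact h3⟩,
        back hq x⟩
    · rintro ⟨t, ⟨⟨h1, h2⟩, h3⟩, rfl⟩
      refine ⟨⟨?_, ?_⟩, h3⟩
      · have := (div_le_div_iff_of_pos_right hq).mpr h2
        linarith
      · have := div_nonneg h1 hq.le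
        linarith
  have hright : ∀ f ∈ Cls (m + 1) σ, |D f 1 1| = D T 1 1 →
      ∃ s : ℝ, (s = 1 ∨ s = -1) ∧ ∀ x ∈ Icc (1 - c' / q) 1, f x = s * T x := by
    intro f hf hfe
    have h := huni 1 le_rfl (by omega) _ (Pool.Agent.LKI.cls_to_W (by omega) hq hqn hf) (by
      simp only [zero_div, sub_zero]
      rw [abs_fac hq, sgn_fac, hfe])
    obtain ⟨s, hs, h⟩ := h
    refine ⟨s, hs, fun x hx => ?_⟩
    have hx0 : q * (1 - x) ≤ c' := by
      have : 1 - x ≤ c' / q := by linarith [hx.1]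
      rw [le_div_iff₀ hq] at this
      linarith
    have h' := h (q * (1 - x)) ⟨mul_nonneg hq.le (by linarith [hx.2]), hx0⟩
    simpa only [back hq, pow_zero, one_mul, D_zero] using h'
  have habs1 : ∀ s : ℝ, (s = 1 ∨ s = -1) → |s| = 1 := by
    rintro s (rfl | rfl) <;> simp
  refine ⟨1 - c' / q, by linarith, by linarith, ?_, ?_, ?_⟩
  · simpa only [pow_zero, one_mul, D_zero] using hc1
  · rw [himg, Set.ncard_image_of_injective]
    · exact hcard
    · intro a b hab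
      simp only [sub_right_inj] at hab
      exact (div_left_inj' hq.ne').mp hab
  · intro f hf
    rw [hM]
    constructor
    · rintro ⟨x, hx, hxe⟩
      rcases eq_or_lt_of_le hx.1 with h1 | h1
      · rw [← h1, ← refl_abs hf (by omega)] at hxe
        obtain ⟨s, hs, h⟩ := hright _ (Pool.Agent.LKI.cls_refl (by omega) hf).1 hxe
        exact ⟨s, hs, Or.inr h⟩
      rcases eq_or_lt_of_le hx.2 with h2 | h2
      · rw [h2] at hxe
        obtain ⟨s, hs, h⟩ := hright f hf hxe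
        exact ⟨s, hs, Or.inl h⟩
      · exact absurd hxe (hlt f hf x ⟨h1, h2⟩).ne
    · rintro ⟨s, hs, h | h⟩
      · refine ⟨1, by norm_num, ?_⟩
        rw [Pool.Agent.LKI.D_congr (by omega) hf hTC (by linarith) (by linarith) h 1 (by omega), abs_mul,
          habs1 s hs, one_mul, abs_of_pos hTpos]
      · refine ⟨-1, by norm_num, ?_⟩
        rw [← refl_abs hf (by omega), Pool.Agent.LKI.D_congr (by omega)
          (Pool.Agent.LKI.cls_refl (by omega) hf).1 hTC (by linarith) (by linarith) h 1 (by omega), abs_mul,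
          habs1 s hs, one_mul, abs_of_pos hTpos]

end Pool.LK1
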