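import Pool.Agent.LK1.Base

/-!
# LK1/Resc: rescaling a window to `[-1,1]`, reflection

`InF.rescale`: `y ↦ D 0 (u + μ y)`, its `j`-th derivative is `μ^j D j (u + μ y)`; the Lipschitz constant of the
`m`-th derivative is `s μ^(m+1)`.  (Chain rule for `HasDerivWithinAt` with the affine map, which maps
`Icc (-1) 1` into `Icc a b`: `HasDerivWithinAt.comp` / `scomp`.)

`InF.reflect`: `x ↦ -D 0 (-x)`, its `j`-th derivative is `-(-1)^j D j (-x)`.
-/

namespace Pool.LK1

open Set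

theorem InF.rescale {m : ℕ} {s a b : ℝ} {D : ℕ → ℝ → ℝ} (h : InF m s a b D) {u μ : ℝ} (hμ : 0 < μ)
    (h1 : a ≤ u - μ) (h2 : u + μ ≤ b) :
    InF m (s * μ ^ (m + 1)) (-1) 1 (fun j y => μ ^ j * D j (u + μ * y)) := by
  have hmaps : ∀ y ∈ Icc (-1 : ℝ) 1, u + μ * y ∈ Icc a b := by
    intro y hy
    constructor
    · nlinarith [hy.1, mul_le_mul_of_nonneg_left hy.1 hμ.le]
    · nlinarith [hy.2, mul_le_mul_of_nonneg_left hy.2 hμ.le]
  refine ⟨?_, ?_, ?_⟩
  · intro j hj y hy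
    have haff : HasDerivWithinAt (fun y : ℝ => u + μ * y) μ (Icc (-1 : ℝ) 1) y := by
      have := ((hasDerivWithinAt_id y (Icc (-1 : ℝ) 1)).const_mul μ).const_add u
      simpa using this
    have hD := h.der j hj (u + μ * y) (hmaps y hy)
    have hc := HasDerivWithinAt.comp (h := fun y : ℝ => u + μ * y) (h₂ := D j) y hD haff
      (fun z hz => hmaps z hz)
    have := hc.const_mul (μ ^ j)
    have e : μ ^ (j + 1) * D (j + 1) (u + μ * y) = μ ^ j * (D (j + 1) (u + μ * y) * μ) := by ring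
    show HasDerivWithinAt (fun y => μ ^ j * D j (u + μ * y))
      (μ ^ (j + 1) * D (j + 1) (u + μ * y)) (Icc (-1) 1) y
    rw [e]
    exact this
  · intro x hx y hy
    have := h.lip _ (hmaps x hx) _ (hmaps y hy)
    show |μ ^ m * D m (u + μ * x) - μ ^ m * D m (u + μ * y)| ≤ s * μ ^ (m + 1) * |x - y|
    rw [show u + μ * x - (u + μ * y) = μ * (x - y) by ring, abs_mul, abs_of_pos hμ] at this
    rw [show μ ^ m * D m (u + μ * x) - μ ^ m * D m (u + μ * y)
      = μ ^ m * (D m (u + μ * x) - D m (u + μ * y)) by ring, abs_mul, abs_of_pos (pow_pos hμ m)]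
    calc μ ^ m * |D m (u + μ * x) - D m (u + μ * y)| ≤ μ ^ m * (s * (μ * |x - y|)) :=
          mul_le_mul_of_nonneg_left this (pow_pos hμ m).le
      _ = s * μ ^ (m + 1) * |x - y| := by ring
  · intro x hx
    have := h.bd _ (hmaps x hx)
    simpa using this

theorem InF.reflect {m : ℕ} {s : ℝ} {D : ℕ → ℝ → ℝ} (h : InF m s (-1) 1 D) :
    InF m s (-1) 1 (fun j x => -((-1) ^ j * D j (-x))) := by
  have hmaps : ∀ y ∈ Icc (-1 : ℝ) 1, -y ∈ Icc (-1 : ℝ) 1 := by
    intro y hy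
    exact ⟨by linarith [hy.2], by linarith [hy.1]⟩
  refine ⟨?_, ?_, ?_⟩
  · intro j hj y hy
    have haff : HasDerivWithinAt (fun y : ℝ => -y) (-1) (Icc (-1 : ℝ) 1) y := by
      exact (hasDerivWithinAt_id y (Icc (-1 : ℝ) 1)).fun_neg
    have hD := h.der j hj (-y) (hmaps y hy)
    have hc := HasDerivWithinAt.comp (h := fun y : ℝ => -y) (h₂ := D j) y hD haff
      (fun z hz => hmaps z hz)
    have := (hc.const_mul ((-1 : ℝ) ^ j)).neg
    have e : -((-1 : ℝ) ^ (j + 1) * D (j + 1) (-y)) = -((-1) ^ j * (D (j + 1) (-y) * (-1))) := by ring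
    show HasDerivWithinAt (fun x => -((-1 : ℝ) ^ j * D j (-x)))
      (-((-1 : ℝ) ^ (j + 1) * D (j + 1) (-y))) (Icc (-1) 1) y
    rw [e]
    exact this
  · intro x hx y hy
    have := h.lip _ (hmaps x hx) _ (hmaps y hy)
    show |-((-1 : ℝ) ^ m * D m (-x)) - -((-1 : ℝ) ^ m * D m (-y))| ≤ s * |x - y|
    rw [show -x - -y = -(x - y) by ring, abs_neg] at this
    rw [show -((-1 : ℝ) ^ m * D m (-x)) - -((-1 : ℝ) ^ m * D m (-y))
      = -((-1 : ℝ) ^ m * (D m (-x) - D m (-y))) by ring, abs_neg, abs_mul, abs_pow, abs_neg, abs_one,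
      one_pow, one_mul]
    exact this
  · intro x hx
    have := h.bd _ (hmaps x hx)
    simpa using this

end Pool.LK1
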