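import Pool.Agent.LK1.OSP
import Pool.Agent.LK1.AltL
import Pool.Agent.LK1.Resc

/-!
# LK1/OS: one sided bound for the first derivative at a point where the second derivative vanishes

`oneSided`: `M ≥ 2`, `m = M + 1`, `ψ ∈ F` on `[-1,1]` with constant `τ ≥ 0`, `ψ''(1) = 0`.  Then
`ψ'(1) ≤ P'(1)`, `P` the polynomial of `osPoly` with `ζ M 2^(M-1) (M+2)! = τ`.

Proof.  Let `0 < c < 1`; we show `c ψ'(1) ≤ P'(1)` (then let `c → 1`, e.g. `le_of_forall_lt_one_mul_le` or by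
contradiction with `c = (P'(1)/ψ'(1) + 1)/2`; note `P'(1) > 0`).  Suppose `P'(1) < c ψ'(1)` and put
`d_j = P_j - c ψ_j`, a derivative family on `[-1,1]` (`Der (M+1)`).
1. `d_0 (t_i) (-1)^i = 1 - c (-1)^i ψ_0(t_i) ≥ 1 - c > 0` at `t_i = cos (iπ/M)`, `i = 0, …, M`, which decrease
   strictly (`Real.cos` is strictly decreasing on `[0,π]`).  So `Alt d_0 (-1) 1 (M+1) 1`.
2. `Alt.inc`, `Inc.alt`: `Alt d_1 (-1) 1 M 1`.
3. `d_1 (1) < 0`: `Alt.inc_right` gives `Inc d_1 (-1) 1 M (-1)`, so `Alt d_2 (-1) 1 M (-1)`.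
4. `d_2 (1) = 0`: `Alt.inc_right` gives `Inc d_2 (-1) 1 M 1`, so `Alt d_3 (-1) 1 M 1` if `2 < M + 1`
   (this is `M ≥ 2`).
5. `Alt.down` from order `3` to order `M + 1` (`M - 2` steps): `Alt d_{M+1} (-1) 1 2 1`, so
   `Inc d_{M+1} (-1) 1 1 1`.
6. But `d_{M+1}` is nonincreasing: `P_{M+1}(y) - P_{M+1}(x) = -τ (y-x)` and `|c (ψ_{M+1}(y)-ψ_{M+1}(x))| ≤ c τ (y-x)`.
   Contradiction with `no_inc_anti`.

`oneSided_window`: apply it to the window `[y-2μ, y]` (`InF.rescale` with `u = y - μ`), `τ = 2^(M+1) (M+2)! μ^(M+2)`,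
so `ζ = 4 μ^(M+2) / M` (`2^(M+1) = 4 · 2^(M-1)`), `12 ζ M^2 = 48 M μ^(M+2)`; `ψ_1(1) = μ φ_1(y)`,
`ψ_2(1) = μ^2 φ_2(y) = 0`.
-/

namespace Pool.LK1

open Set

theorem oneSided (M : ℕ) (hM : 2 ≤ M) {τ : ℝ} (hτ : 0 ≤ τ) {ψ : ℕ → ℝ → ℝ} (h : InF (M + 1) τ (-1) 1 ψ)
    (h2 : ψ 2 1 = 0) :
    ψ 1 1 ≤ (M : ℝ) ^ 2 * ((M : ℝ) ^ 2 + 2 + 12 * (τ / (M * 2 ^ (M - 1) * (M + 2).factorial)))
      / (2 * (M : ℝ) ^ 2 + 1) := by
  have hM0 : (0 : ℝ) < M := by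
    have : 0 < M := by omega
    exact_mod_cast this
  have hden : (0 : ℝ) < M * 2 ^ (M - 1) * (M + 2).factorial := by positivity
  obtain ⟨P, hPd, hP0, hP1, hP2, hPtop⟩ := osPoly M hM (τ / (M * 2 ^ (M - 1) * (M + 2).factorial))
  have hζ : τ / (M * 2 ^ (M - 1) * (M + 2).factorial) * M * 2 ^ (M - 1) * (M + 2).factorial = τ := by
    field_simp
  rw [hζ] at hPtop
  rw [← hP1]
  have hK : 0 < P 1 1 := by
    rw [hP1]
    have : 0 ≤ τ / (M * 2 ^ (M - 1) * (M + 2).factorial) := div_nonneg hτ hden.le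
    positivity
  by_contra hcon
  push Not at hcon
  have hψ : 0 < ψ 1 1 := hK.trans hcon
  set c : ℝ := (P 1 1 / ψ 1 1 + 1) / 2 with hc
  have hc0 : 0 < c := by rw [hc]; positivity
  have hq : P 1 1 / ψ 1 1 < 1 := (div_lt_one hψ).2 hcon
  have hc1 : c < 1 := by rw [hc]; linarith
  have hcψ : c * ψ 1 1 = (P 1 1 + ψ 1 1) / 2 := by
    rw [hc]; field_simp
  have hlt : P 1 1 - c * ψ 1 1 < 0 := by rw [hcψ]; linarith
  have hab : (-1 : ℝ) ≤ 1 := by norm_num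
  have hPD : Der (M + 1) (-1) 1 P := fun j _ x _ => (hPd j x).hasDerivWithinAt
  have hD : Der (M + 1) (-1) 1 (fun j x => P j x - c * ψ j x) := hPD.sub_smul h.der c
  -- step 1
  have A0 : Alt (fun x => P 0 x - c * ψ 0 x) (-1) 1 (M + 1) 1 := by
    refine ⟨fun i => Real.cos (i * Real.pi / M), ?_, ?_, ?_⟩
    · intro i _
      exact ⟨Real.neg_one_le_cos _, Real.cos_le_one _⟩
    · intro i hi
      have hi' : ((i : ℝ) + 1) ≤ M := by
        have : i + 1 ≤ M := by omega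
        exact_mod_cast this
      have hpi := Real.pi_pos
      refine Real.cos_lt_cos_of_nonneg_of_le_pi (by positivity) ?_ ?_
      · rw [div_le_iff₀ hM0]
        push_cast
        nlinarith
      · push_cast
        refine (div_lt_div_iff_of_pos_right hM0).2 ?_
        nlinarith
    · intro i _
      have hmem : Real.cos (i * Real.pi / M) ∈ Icc (-1 : ℝ) 1 :=
        ⟨Real.neg_one_le_cos _, Real.cos_le_one _⟩
      have hb := h.bd _ hmem
      have hP := hP0 i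
      have habs : |(-1 : ℝ) ^ i * ψ 0 (Real.cos (i * Real.pi / M))| ≤ 1 := by
        rw [abs_mul, abs_pow, abs_neg, abs_one, one_pow, one_mul]
        exact hb
      have hle := (abs_le.1 habs).2
      have hsq : (-1 : ℝ) ^ i * (-1) ^ i = 1 := by
        rw [← mul_pow]; norm_num
      have : 1 * (-1 : ℝ) ^ i * (P 0 (Real.cos (i * Real.pi / M)) - c * ψ 0 (Real.cos (i * Real.pi / M)))
          = 1 - c * ((-1 : ℝ) ^ i * ψ 0 (Real.cos (i * Real.pi / M))) := by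
        rw [hP]
        linear_combination hsq
      show 0 < 1 * (-1 : ℝ) ^ i * (P 0 (Real.cos (i * Real.pi / M)) - c * ψ 0 (Real.cos (i * Real.pi / M)))
      rw [this]
      nlinarith
  -- step 2
  have A1 : Alt (fun x => P 1 x - c * ψ 1 x) (-1) 1 M 1 :=
    A0.inc.alt (fun x hx => hD 0 (by omega) x hx)
  -- step 3
  have A2 : Alt (fun x => P 2 x - c * ψ 2 x) (-1) 1 M (-1) :=
    (A1.inc_right hab (by omega) (by
      show 1 * (P 1 1 - c * ψ 1 1) ≤ 0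
      linarith)).alt (fun x hx => hD 1 (by omega) x hx)
  -- step 4
  have A3 : Alt (fun x => P 3 x - c * ψ 3 x) (-1) 1 M (-(-1)) :=
    (A2.inc_right hab (by omega) (by
      show -1 * (P 2 1 - c * ψ 2 1) ≤ 0
      rw [hP2, h2]
      simp)).alt (fun x hx => hD 2 (by omega) x hx)
  -- step 5
  obtain ⟨k, rfl⟩ : ∃ k, M = 2 + k := ⟨M - 2, by omega⟩
  have A4 := Alt.down hD (s := -(-1)) k 3 2 (by omega) A3
  have hidx : 3 + k = 2 + k + 1 := by omega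
  rw [hidx] at A4
  have I : Inc (fun x => P (2 + k + 1) x - c * ψ (2 + k + 1) x) (-1) 1 1 1 := by
    have := A4.inc
    rwa [neg_neg] at this
  -- step 6
  refine no_inc_anti ?_ I
  intro x hx y hy hxy
  have hl := h.lip y hy x hx
  rw [abs_of_nonneg (sub_nonneg.2 hxy)] at hl
  have hl' := (abs_le.1 hl).1
  have ht := hPtop x y
  have h1 : 0 ≤ τ * (y - x) := mul_nonneg hτ (sub_nonneg.2 hxy)
  have h3 : -(c * (ψ (2 + k + 1) y - ψ (2 + k + 1) x)) ≤ c * (τ * (y - x)) := by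
    nlinarith
  have h4 : c * (τ * (y - x)) ≤ τ * (y - x) := by nlinarith
  show P (2 + k + 1) y - c * ψ (2 + k + 1) y ≤ P (2 + k + 1) x - c * ψ (2 + k + 1) x
  linarith

theorem oneSided_window (M : ℕ) (hM : 2 ≤ M) {φ : ℕ → ℝ → ℝ}
    (h : InF (M + 1) (2 ^ (M + 1) * (M + 2).factorial) (-1) 1 φ) {y μ : ℝ} (hμ : 0 < μ)
    (h1 : -1 ≤ y - 2 * μ) (h3 : y ≤ 1) (h2 : φ 2 y = 0) :
    φ 1 y ≤ ((M : ℝ) ^ 2 * ((M : ℝ) ^ 2 + 2) + 48 * M * μ ^ (M + 2)) / ((2 * (M : ℝ) ^ 2 + 1) * μ) := by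
  have hM0 : (0 : ℝ) < M := by
    have : 0 < M := by omega
    exact_mod_cast this
  have hr := h.rescale (u := y - μ) hμ (by linarith) (by linarith)
  have hy : y - μ + μ * 1 = y := by ring
  have hτ : (0 : ℝ) ≤ 2 ^ (M + 1) * (M + 2).factorial * μ ^ (M + 1 + 1) := by positivity
  have key := oneSided M hM hτ hr (by
    show μ ^ 2 * φ 2 (y - μ + μ * 1) = 0
    rw [hy, h2, mul_zero])
  have key' : μ ^ 1 * φ 1 y ≤ (M : ℝ) ^ 2 * ((M : ℝ) ^ 2 + 2 + 12 *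
      (2 ^ (M + 1) * (M + 2).factorial * μ ^ (M + 1 + 1) / (M * 2 ^ (M - 1) * (M + 2).factorial)))
      / (2 * (M : ℝ) ^ 2 + 1) := by
    have := key
    simp only [hy] at this
    exact this
  have hζ : (2 : ℝ) ^ (M + 1) * (M + 2).factorial * μ ^ (M + 1 + 1) /
      (M * 2 ^ (M - 1) * (M + 2).factorial) = 4 * μ ^ (M + 2) / M := by
    have h2p : (2 : ℝ) ^ (M + 1) = 4 * 2 ^ (M - 1) := by
      have : M + 1 = (M - 1) + 2 := by omega
      rw [this, pow_add]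
      ring
    rw [h2p]
    field_simp
  rw [hζ, pow_one] at key'
  rw [le_div_iff₀ (by positivity)]
  rw [le_div_iff₀ (by positivity)] at key'
  have e : (M : ℝ) ^ 2 * ((M : ℝ) ^ 2 + 2 + 12 * (4 * μ ^ (M + 2) / M))
      = (M : ℝ) ^ 2 * ((M : ℝ) ^ 2 + 2) + 48 * M * μ ^ (M + 2) := by
    field_simp
    ring
  rw [e] at key'
  calc φ 1 y * ((2 * (M : ℝ) ^ 2 + 1) * μ) = μ * φ 1 y * (2 * (M : ℝ) ^ 2 + 1) := by ring
    _ ≤ _ := key'

end Pool.LK1
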