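import Pool.Agent.LK1.ChebJ

/-!
# LK1/OSP: the comparison polynomial for the one sided bound

`M ≥ 2`, `n = M + 2`, `m = M + 1`.  Let `T = T_M`, `Ω = (x^2 - 1) T'` (degree `M + 1`, leading coefficient
`M 2^(M-1)`), `P = T + Ω · (g - ζ (x - 1))` with `g = (12 ζ - M^2 + 1) / (4 M^2 + 2)`.

* At the extremal points `t_i = cos (i π / M)`, `i = 0, …, M`: `Ω (t_i) = 0` (`t_i^2 = 1` for `i = 0, M`, and
  `T'(t_i) = 0` for `0 < i < M`; in all cases `Ω (cos t) = - sin t · (T'(cos t) sin t) = - sin t · M sin (M t)`,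
  see `TJ1_cos`), so `P (t_i) = T (t_i) = (-1)^i`.
* `Ω(1) = 0`, `Ω'(1) = 2 T'(1) = 2 M^2`, `Ω''(1) = 2 T'(1) + 4 T''(1) = M^2 (4 M^2 + 2) / 3`
  (`T'(1) = M^2`, `T''(1) = M^2 (M^2-1)/3`; the term `(x^2-1) T'''` vanishes at `1`).
* `P'(1) = T'(1) + Ω'(1) g = M^2 + 2 M^2 g = M^2 (M^2 + 2 + 12 ζ) / (2 M^2 + 1)`.
* `P''(1) = T''(1) + Ω''(1) g - 2 ζ Ω'(1) = M^2(M^2-1)/3 + M^2 (12 ζ - M^2 + 1)/3 - 4 M^2 ζ = 0`.
* the coefficient of `x^(M+2)` of `P` is `- ζ M 2^(M-1)`, so the increments of `P^(M+1)` are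
  `- ζ M 2^(M-1) (M+2)! (y - x)`.

Take `P j x = (derivative^[j] P).eval x`.
-/

namespace Pool.LK1

open Set Polynomial

theorem osPoly (M : ℕ) (hM : 2 ≤ M) (ζ : ℝ) :
    ∃ P : ℕ → ℝ → ℝ, (∀ j x, HasDerivAt (P j) (P (j + 1) x) x) ∧
      (∀ i : ℕ, P 0 (Real.cos (i * Real.pi / M)) = (-1) ^ i) ∧
      P 1 1 = (M : ℝ) ^ 2 * ((M : ℝ) ^ 2 + 2 + 12 * ζ) / (2 * (M : ℝ) ^ 2 + 1) ∧
      P 2 1 = 0 ∧
      ∀ x y : ℝ, P (M + 1) y - P (M + 1) x =
        -(ζ * M * 2 ^ (M - 1) * (M + 2).factorial) * (y - x) := by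
  obtain ⟨N, rfl⟩ : ∃ N, M = N + 1 := ⟨M - 1, by omega⟩
  set T : ℝ[X] := Chebyshev.T ℝ ((N + 1 : ℕ) : ℤ) with hT
  set g : ℝ := (12 * ζ - ((N + 1 : ℕ) : ℝ) ^ 2 + 1) / (4 * ((N + 1 : ℕ) : ℝ) ^ 2 + 2) with hg
  set Q : ℝ[X] := T + (X ^ 2 - 1) * derivative T * (C g - C ζ * (X - 1)) with hQ
  have hMne : (((N + 1 : ℕ) : ℝ)) ≠ 0 := by positivity
  -- values of the derivatives of `T` at one
  have hT1 : (derivative T).eval 1 = ((N + 1 : ℕ) : ℝ) ^ 2 := by
    rw [hT, Chebyshev.derivative_T_eval_one]; push_cast; ring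
  have hT2 : (derivative (derivative T)).eval 1 =
      ((N + 1 : ℕ) : ℝ) ^ 2 * (((N + 1 : ℕ) : ℝ) ^ 2 - 1) / 3 := by
    have h := Chebyshev.iterate_derivative_T_eval_one_recurrence (R := ℝ) ((N + 1 : ℕ) : ℤ) 1
    simp only [Function.iterate_succ, Function.iterate_zero, Function.comp, id_eq, ← hT] at h
    rw [hT1] at h
    push_cast at h ⊢
    linarith
  refine ⟨fun j x => (derivative^[j] Q).eval x, ?_, ?_, ?_, ?_, ?_⟩
  · intro j x
    have h := (derivative^[j] Q).hasDerivAt x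
    rw [← Function.iterate_succ_apply' derivative j Q] at h
    exact h
  · intro i
    have hkey : ((N + 1 : ℕ) : ℝ) * ((i : ℝ) * Real.pi / ((N + 1 : ℕ) : ℝ)) = i * Real.pi := by
      field_simp
    have h1 : T.eval (Real.cos (i * Real.pi / ((N + 1 : ℕ) : ℝ))) = (-1) ^ i := by
      rw [hT, Chebyshev.T_real_cos]
      rw [show (((((N + 1 : ℕ) : ℤ)) : ℝ)) = ((N + 1 : ℕ) : ℝ) by push_cast; ring, hkey]
      exact Real.cos_nat_mul_pi i
    have h2 : (derivative T).eval (Real.cos (i * Real.pi / ((N + 1 : ℕ) : ℝ))) *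
        Real.sin (i * Real.pi / ((N + 1 : ℕ) : ℝ)) = 0 := by
      rw [hT, Chebyshev.T_derivative_eq_U, eval_mul, mul_assoc, Chebyshev.U_real_cos]
      rw [show ((((((N + 1 : ℕ) : ℤ) - 1 : ℤ)) : ℝ) + 1) = ((N + 1 : ℕ) : ℝ) by push_cast; ring, hkey,
        Real.sin_nat_mul_pi, mul_zero]
    have h3 : (Real.cos (i * Real.pi / ((N + 1 : ℕ) : ℝ)) ^ 2 - 1) *
        (derivative T).eval (Real.cos (i * Real.pi / ((N + 1 : ℕ) : ℝ))) = 0 := by
      have hsc := Real.sin_sq_add_cos_sq (i * Real.pi / ((N + 1 : ℕ) : ℝ))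
      rw [show Real.cos (i * Real.pi / ((N + 1 : ℕ) : ℝ)) ^ 2 - 1 =
        - (Real.sin (i * Real.pi / ((N + 1 : ℕ) : ℝ)) ^ 2) by linarith]
      rw [show -(Real.sin (i * Real.pi / ((N + 1 : ℕ) : ℝ)) ^ 2) *
          (derivative T).eval (Real.cos (i * Real.pi / ((N + 1 : ℕ) : ℝ))) =
          - Real.sin (i * Real.pi / ((N + 1 : ℕ) : ℝ)) *
          ((derivative T).eval (Real.cos (i * Real.pi / ((N + 1 : ℕ) : ℝ))) *
            Real.sin (i * Real.pi / ((N + 1 : ℕ) : ℝ))) by ring, h2, mul_zero]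
    simp only [Function.iterate_zero, id_eq]
    rw [hQ, eval_add, eval_mul, eval_mul, eval_sub, eval_pow, eval_X, eval_one, h1, h3, zero_mul,
      add_zero]
  · simp only [Function.iterate_one, hQ]
    simp only [derivative_add, derivative_mul, derivative_sub, derivative_C, derivative_X,
      derivative_one, derivative_X_pow, eval_add, eval_mul, eval_sub, eval_pow, eval_X, eval_C,
      eval_one, eval_zero, hT1]
    rw [hg]
    norm_num
    field_simp
    ring
  · simp only [Function.iterate_succ, Function.iterate_zero, Function.comp, id_eq, hQ]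
    simp only [derivative_add, derivative_mul, derivative_sub, derivative_C, derivative_X,
      derivative_one, derivative_X_pow, eval_add, eval_mul, eval_sub, eval_pow, eval_X, eval_C,
      eval_one, eval_zero, hT1, hT2]
    rw [hg]
    norm_num
    field_simp
    ring
  · -- the increments of the derivative of order `M + 1`
    have hTdeg : T.natDegree = N + 1 := by rw [hT, Chebyshev.natDegree_T, Int.natAbs_natCast]
    have hTlead : T.coeff (N + 1) = 2 ^ N := by
      have h := Chebyshev.leadingCoeff_T ℝ ((N + 1 : ℕ) : ℤ)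
      rw [← hT, leadingCoeff, hTdeg, Int.natAbs_natCast, Nat.add_sub_cancel] at h
      exact h
    have hc0 : ∀ k, N + 1 < k → T.coeff k = 0 := fun k hk =>
      coeff_eq_zero_of_natDegree_lt (by omega)
    have hdN : (derivative T).coeff N = 2 ^ N * ((N : ℝ) + 1) := by
      rw [coeff_derivative, hTlead]
    have hd0 : ∀ k, N < k → (derivative T).coeff k = 0 := by
      intro k hk; rw [coeff_derivative, hc0 _ (by omega), zero_mul]
    have hQ' : Q = T + C (g + ζ) * (derivative T * X ^ 2) - C (g + ζ) * derivative T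
        - C ζ * (derivative T * X ^ 3) + C ζ * (derivative T * X) := by
      rw [hQ]; simp only [C_add]; ring
    have hQc : ∀ k, Q.coeff (k + 3) = T.coeff (k + 3) + (g + ζ) * (derivative T).coeff (k + 1)
        - (g + ζ) * (derivative T).coeff (k + 3) - ζ * (derivative T).coeff k
        + ζ * (derivative T).coeff (k + 2) := by
      intro k
      rw [hQ']
      simp only [coeff_add, coeff_sub, coeff_C_mul]
      rw [show k + 3 = (k + 1) + 2 by ring, coeff_mul_X_pow,
        show (k + 1) + 2 = k + 3 by ring, coeff_mul_X_pow, show k + 3 = (k + 2) + 1 by ring,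
        coeff_mul_X]
    have hQtop : Q.coeff (N + 3) = -(ζ * (2 ^ N * ((N : ℝ) + 1))) := by
      rw [hQc, hc0 (N + 3) (by omega), hd0 (N + 1) (by omega), hd0 (N + 3) (by omega),
        hd0 (N + 2) (by omega), hdN]; ring
    have hQdeg : Q.natDegree ≤ N + 3 := by
      rw [natDegree_le_iff_coeff_eq_zero]
      intro k hk
      obtain ⟨l, rfl⟩ : ∃ l, k = l + 3 := ⟨k - 3, by omega⟩
      rw [hQc, hc0 (l + 3) (by omega), hd0 (l + 1) (by omega), hd0 (l + 3) (by omega),
        hd0 l (by omega), hd0 (l + 2) (by omega)]; ring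
    have hRdeg : (derivative^[N + 1 + 1] Q).natDegree ≤ 1 :=
      (natDegree_iterate_derivative Q _).trans (by omega)
    obtain ⟨a, b, hab⟩ := exists_eq_X_add_C_of_natDegree_le_one hRdeg
    have ha : a = -(ζ * ((N + 1 : ℕ) : ℝ) * 2 ^ N * (N + 1 + 2).factorial) := by
      have h := coeff_iterate_derivative (k := N + 1 + 1) Q 1
      rw [hab, show 1 + (N + 1 + 1) = N + 3 by ring, hQtop] at h
      simp only [coeff_add, coeff_C_mul, coeff_X_one, mul_one, coeff_C_succ, add_zero] at h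
      rw [h]
      have hf : (N + 3).descFactorial (N + 1 + 1) = (N + 1 + 2).factorial := by
        have h1 := Nat.factorial_mul_descFactorial (n := N + 3) (k := N + 1 + 1) (by omega)
        rw [show N + 3 - (N + 1 + 1) = 1 by omega, Nat.factorial_one, one_mul] at h1
        exact h1
      rw [hf, nsmul_eq_mul]
      push_cast
      ring
    intro x y
    simp only
    rw [hab]
    simp only [eval_add, eval_mul, eval_C, eval_X]
    rw [ha, show N + 1 - 1 = N by omega]
    ring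

end Pool.LK1
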